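import Mathlib
import Pool.Agent.R105.GD.Gol

/-!
The gcd recursion for Goldbach pairs in terms of the excess `e_n = N - 1 - n - a_n`:
`e_n = e_{n-1} + gcd (N ∓ e_{n-1}, v_n) - 1`, with `v_n = n` for even and `v_n = n + 2 e_{n-1}` for
odd `n`.
-/

set_option autoImplicit false

namespace Pool.Agent.K7.H40.GR

open Pool.Agent.R105.GD.Gol

/-- the second argument of the gcd -/
def vv (n e : ℕ) : ℕ := if n % 2 = 0 then n else n + 2 * e

/-- the first argument of the gcd -/
def xx (n e N : ℕ) : ℤ := if n % 2 = 0 then (N : ℤ) - e else (N : ℤ) + e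

/-- the gcd -/
def gc (n e N : ℕ) : ℕ := Int.gcd (xx n e N) (vv n e)

/-- the excess -/
def ex (N : ℕ) : ℕ → ℕ
  | 0 => 0
  | 1 => 0
  | (n + 2) => ex N (n + 1) + gc (n + 2) (ex N (n + 1)) N - 1

lemma vv_pos {n e : ℕ} (hn : 1 ≤ n) : 0 < vv n e := by
  unfold vv; split_ifs <;> omega

lemma gc_pos {n e N : ℕ} (hn : 1 ≤ n) : 1 ≤ gc n e N := by
  have := vv_pos (e := e) hn
  unfold gc
  rw [Nat.one_le_iff_ne_zero]
  intro h
  rw [Int.gcd_eq_zero_iff] at h
  omega

lemma gc_dvd {n e N : ℕ} : gc n e N ∣ vv n e := by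
  have := Int.gcd_dvd_right (xx n e N) (vv n e : ℤ)
  exact_mod_cast this

lemma gc_le {n e N : ℕ} (hn : 1 ≤ n) : gc n e N ≤ vv n e := Nat.le_of_dvd (vv_pos hn) gc_dvd

lemma ex_one (N : ℕ) : ex N 1 = 0 := rfl

lemma ex_succ (N n : ℕ) (hn : 1 ≤ n) : ex N (n + 1) = ex N n + gc (n + 1) (ex N n) N - 1 := by
  obtain ⟨k, rfl⟩ : ∃ k, n = k + 1 := ⟨n - 1, by omega⟩
  rfl

lemma ex_succ' (N n : ℕ) (hn : 1 ≤ n) : ex N (n + 1) + 1 = ex N n + gc (n + 1) (ex N n) N := by
  have h1 := ex_succ N n hn
  have h2 := gc_pos (n := n + 1) (e := ex N n) (N := N) (by omega)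
  omega

lemma ex_mono (N : ℕ) {m n : ℕ} (hmn : m ≤ n) : ex N m ≤ ex N n := by
  induction n, hmn using Nat.le_induction with
  | base => exact le_rfl
  | succ n hn ih =>
    rcases Nat.eq_zero_or_pos n with rfl | h
    · simpa [ex] using ih
    · have := ex_succ' N n h
      have h2 := gc_pos (n := n + 1) (e := ex N n) (N := N) (by omega)
      omega

/-- the link with the recursion of the problem -/
lemma aa_eq (N n : ℕ) (hn : 1 ≤ n) : aa N n = (N : ℤ) - 1 - n - ex N n := by
  induction n, hn using Nat.le_induction with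
  | base => rw [aa_one, ex_one]; push_cast; ring
  | succ n hn ih =>
    have h1 := aa_rec N (n + 1) (by omega)
    rw [Nat.add_sub_cancel, ih] at h1
    have h2 := ex_succ' N n hn
    have h3 : Int.gcd ((N : ℤ) - 1 - n - ex N n)
        ((N : ℤ) - (-1) ^ (n + 1) * ((N : ℤ) - ((n + 1 : ℕ) : ℤ))) = gc (n + 1) (ex N n) N := by
      unfold gc xx vv
      rcases Nat.even_or_odd (n + 1) with he | ho
      · rw [he.neg_one_pow, if_pos (Nat.even_iff.1 he), if_pos (Nat.even_iff.1 he)]
        have e1 : (N : ℤ) - 1 * ((N : ℤ) - ((n + 1 : ℕ) : ℤ)) = ((n + 1 : ℕ) : ℤ) := by ring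
        have e2 : (N : ℤ) - 1 - n - ex N n = ((N : ℤ) - ex N n) - ((n + 1 : ℕ) : ℤ) := by
          push_cast; ring
        rw [e1, e2, Int.gcd_sub_right_left_of_dvd _ (dvd_refl _)]
      · have ho' : (n + 1) % 2 = 1 := Nat.odd_iff.1 ho
        rw [ho.neg_one_pow, if_neg (by omega), if_neg (by omega)]
        apply Nat.dvd_antisymm
        · apply Int.dvd_gcd
          all_goals
            have d1 := Int.gcd_dvd_left ((N : ℤ) - 1 - n - ex N n)
              ((N : ℤ) - (-1) * ((N : ℤ) - ((n + 1 : ℕ) : ℤ)))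
            have d2 := Int.gcd_dvd_right ((N : ℤ) - 1 - n - ex N n)
              ((N : ℤ) - (-1) * ((N : ℤ) - ((n + 1 : ℕ) : ℤ)))
          · have e3 : (N : ℤ) + ex N n = (((N : ℤ) - (-1) * ((N : ℤ) - ((n + 1 : ℕ) : ℤ))))
                - ((N : ℤ) - 1 - n - ex N n) := by push_cast; ring
            rw [e3]
            exact dvd_sub d2 d1
          · have e3 : ((n + 1 + 2 * ex N n : ℕ) : ℤ) = (((N : ℤ) - (-1) * ((N : ℤ) - ((n + 1 : ℕ) : ℤ))))
                - 2 * ((N : ℤ) - 1 - n - ex N n) := by push_cast; ring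
            rw [e3]
            exact dvd_sub d2 (Dvd.dvd.mul_left d1 2)
        · apply Int.dvd_gcd
          all_goals
            have d1 := Int.gcd_dvd_left ((N : ℤ) + ex N n) ((n + 1 + 2 * ex N n : ℕ) : ℤ)
            have d2 := Int.gcd_dvd_right ((N : ℤ) + ex N n) ((n + 1 + 2 * ex N n : ℕ) : ℤ)
          · have e3 : (N : ℤ) - 1 - n - ex N n = ((N : ℤ) + ex N n)
                - ((n + 1 + 2 * ex N n : ℕ) : ℤ) := by push_cast; ring
            rw [e3]
            exact dvd_sub d1 d2
          · have e3 : (N : ℤ) - (-1) * ((N : ℤ) - ((n + 1 : ℕ) : ℤ)) = 2 * ((N : ℤ) + ex N n)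
                - ((n + 1 + 2 * ex N n : ℕ) : ℤ) := by push_cast; ring
            rw [e3]
            exact dvd_sub (Dvd.dvd.mul_left d1 2) d2
    rw [h3] at h1
    rw [h1]
    push_cast
    have h4 : ((ex N (n + 1) : ℕ) : ℤ) + 1 = ex N n + gc (n + 1) (ex N n) N := by exact_mod_cast h2
    linarith

/-- waiting time: a jump at `n + 1` from the excess `e` which was reached at time `s` -/
lemma wait {N s n : ℕ} (hs : 1 ≤ s) (hsn : s ≤ n) (he : ex N n = ex N s)
    (hj : ex N n < ex N (n + 1)) : n + 1 ≤ s + 2 * (ex N (n + 1) - ex N n + 1) := by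
  by_contra hcon
  push Not at hcon
  have h1 := ex_succ' N n (by omega)
  set e := ex N n with hedef
  set g := gc (n + 1) e N with hg
  have hg2 : 2 ≤ g := by omega
  have hge : ex N (n + 1) - e + 1 = g := by omega
  rw [hge] at hcon
  -- the time `m + 1 = n + 1 - 2 g`
  set m := n - 2 * g with hm
  have hsm : s ≤ m := by omega
  have hem : ex N m = e := by
    have a1 := ex_mono N hsm
    have a2 := ex_mono N (show m ≤ n by omega)
    omega
  have hem1 : ex N (m + 1) = e := by
    have a1 := ex_mono N (show s ≤ m + 1 by omega)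
    have a2 := ex_mono N (show m + 1 ≤ n by omega)
    omega
  have h2 := ex_succ' N m (by omega)
  rw [hem, hem1] at h2
  have h3 : gc (m + 1) e N = 1 := by omega
  have h4 : g ∣ gc (m + 1) e N := by
    have hgx := Int.gcd_dvd_left (xx (n + 1) e N) (vv (n + 1) e : ℤ)
    have hgv := Int.gcd_dvd_right (xx (n + 1) e N) (vv (n + 1) e : ℤ)
    rw [show (Int.gcd (xx (n + 1) e N) (vv (n + 1) e : ℤ)) = g from rfl] at hgx hgv
    unfold gc
    apply Int.dvd_gcd
    · have : xx (m + 1) e N = xx (n + 1) e N := by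
        unfold xx
        have : (m + 1) % 2 = (n + 1) % 2 := by omega
        rw [this]
      rw [this]; exact hgx
    · have : ((vv (n + 1) e : ℕ) : ℤ) = (vv (m + 1) e : ℕ) + 2 * (g : ℤ) := by
        unfold vv
        have hpar : (m + 1) % 2 = (n + 1) % 2 := by omega
        rw [hpar]
        split_ifs <;> omega
      rw [this] at hgv
      exact (dvd_add_left (Dvd.intro_left 2 rfl)).1 hgv
  rw [h3] at h4
  have := Nat.le_of_dvd one_pos h4
  omega

/-- a jump to the excess `e` happens at a time `≤ 4 e + 1` -/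
lemma jump_time (N : ℕ) : ∀ n : ℕ, 1 ≤ n → ex N n < ex N (n + 1) → n + 1 ≤ 4 * ex N (n + 1) + 1 := by
  intro n
  induction n using Nat.strong_induction_on with
  | _ n ih =>
    intro hn hj
    -- the first time with the excess `ex N n`
    have hex : ∃ s, ex N s = ex N n ∧ 1 ≤ s := ⟨n, rfl, hn⟩
    classical
    set s := Nat.find hex with hs
    have hs1 := Nat.find_spec hex
    have hsn : s ≤ n := Nat.find_min' hex ⟨rfl, hn⟩
    rw [← hs] at hs1
    have hst : s ≤ 4 * ex N n + 1 := by
      rcases Nat.lt_or_ge s 2 with h2 | h2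
      · omega
      · have hlt : ex N (s - 1) < ex N s := by
          have h3 := Nat.find_min hex (m := s - 1) (by omega)
          have h4 := ex_mono N (show s - 1 ≤ s by omega)
          have h5 : ex N (s - 1) ≠ ex N n := fun h => h3 ⟨h, by omega⟩
          have := hs1.1
          omega
        have h6 := ih (s - 1) (by omega) (by omega) (by rw [show s - 1 + 1 = s by omega]; exact hlt)
        rw [show s - 1 + 1 = s by omega, hs1.1] at h6
        exact h6
    have hw := wait hs1.2 hsn hs1.1.symm hj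
    omega

/-- if the excess is at most `E` at the time `t`, it is reached at the time `4 E + 1` -/
lemma ex_stable {N E t : ℕ} (ht : 4 * E + 1 ≤ t) (hE : ex N t ≤ E) : ex N (4 * E + 1) = ex N t := by
  have h : ∀ t, 4 * E + 1 ≤ t → ex N t ≤ E → ex N t = ex N (4 * E + 1) := by
    intro t ht
    induction t, ht using Nat.le_induction with
    | base => intro _; rfl
    | succ t ht ih =>
      intro hE
      have h1 := ex_mono N (show t ≤ t + 1 by omega)
      have h2 := ih (by omega)
      by_contra hne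
      have h3 : ex N t < ex N (t + 1) := by
        rcases Nat.lt_or_ge (ex N t) (ex N (t + 1)) with h | h
        · exact h
        · exfalso; apply hne; omega
      have h4 := jump_time N t (by omega) h3
      omega
  exact (h t ht hE).symm

/-- the final excess -/
lemma final (N E : ℕ) (hN : 2208 ≤ N) (h1 : N ≤ gg N + E + 1) (h2 : 9 * (E + 1) ≤ 2 * N)
    (h3 : 5 * E + 2 ≤ N) :
    ex N (4 * E + 1) = N - 1 - gg N ∧ Nat.Prime (N - ex N (4 * E + 1)) ∧
      Nat.Prime (N + ex N (4 * E + 1)) := by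
  have hz := (gg_isLeast N (by omega)).1
  have ha := aa_eq N (gg N) (by have := hz.1; omega)
  have hle := gg_le N (by omega)
  rw [hz.2] at ha
  have e1 : ex N (gg N) = N - 1 - gg N := by omega
  have e2 : ex N (4 * E + 1) = ex N (gg N) := ex_stable (by omega) (by omega)
  have hp := gg_primes N hN (by omega)
  refine ⟨by omega, ?_, ?_⟩
  · rw [e2, e1]
    have : N - (N - 1 - gg N) = gg N + 1 := by omega
    rw [this]; exact hp.1
  · rw [e2, e1]
    have : N + (N - 1 - gg N) = 2 * N - gg N - 1 := by omega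
    rw [this]; exact hp.2

end Pool.Agent.K7.H40.GR
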