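import Mathlib
import Pool.Agent.K7.H40.GR.Rec

/-!
The decision tree of the recursion: small primes are known, large primes are tested.
-/

set_option autoImplicit false

namespace Pool.Agent.K7.H40.GR

open Finset

/-- the large primes -/
def LP (z W : ℕ) : Finset ℕ := (Ioc z W).filter Nat.Prime

/-- the modulus of the small primes -/
def Q0 (z W : ℕ) : ℕ := ∏ p ∈ (range (z + 1)).filter Nat.Prime, p ^ Nat.log p W

lemma mem_LP {z W p : ℕ} : p ∈ LP z W ↔ z < p ∧ p ≤ W ∧ p.Prime := by
  unfold LP; rw [mem_filter, mem_Ioc]; tauto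

lemma Q0_pos (z W : ℕ) : 0 < Q0 z W :=
  prod_pos fun p hp => pow_pos (mem_filter.1 hp).2.pos _

/-- equality of the gcds -/
lemma gcd_det {z W v : ℕ} (hW : W < z ^ 2) (hv : 0 < v) (hvW : v ≤ W) {x x' : ℤ}
    (h1 : (Q0 z W : ℤ) ∣ x - x')
    (h2 : ∀ p ∈ LP z W, p ∣ v → ((p : ℤ) ∣ x ↔ (p : ℤ) ∣ x')) :
    Int.gcd x v = Int.gcd x' v := by
  have key : ∀ y y' : ℤ, (Q0 z W : ℤ) ∣ y - y' →
      (∀ p ∈ LP z W, p ∣ v → ((p : ℤ) ∣ y → (p : ℤ) ∣ y')) → Int.gcd y v ∣ Int.gcd y' v := by
    intro y y' hy hyy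
    apply Int.dvd_gcd _ (Int.gcd_dvd_right _ _)
    rw [Int.natCast_dvd, Nat.dvd_iff_prime_pow_dvd_dvd]
    intro p k hp hk
    have hkv : p ^ k ∣ v := by
      have := (Int.natCast_dvd_natCast.2 hk).trans (Int.gcd_dvd_right y (v : ℤ))
      exact_mod_cast this
    have hky : ((p ^ k : ℕ) : ℤ) ∣ y := (Int.natCast_dvd_natCast.2 hk).trans (Int.gcd_dvd_left y (v : ℤ))
    have hkW : p ^ k ≤ W := (Nat.le_of_dvd hv hkv).trans hvW
    rw [← Int.natCast_dvd]
    rcases Nat.lt_or_ge z p with hzp | hzp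
    · -- large
      rcases Nat.lt_or_ge k 2 with hk2 | hk2
      · interval_cases k
        · simp
        · rw [pow_one] at *
          exact hyy p (mem_LP.2 ⟨hzp, hkW, hp⟩) hkv hky
      · exfalso
        have h3 : p ^ 2 ≤ p ^ k := Nat.pow_le_pow_right hp.pos hk2
        have h4 : z ^ 2 ≤ p ^ 2 := Nat.pow_le_pow_left hzp.le 2
        omega
    · -- small
      have h5 : k ≤ Nat.log p W := Nat.le_log_of_pow_le hp.one_lt hkW
      have h6 : p ^ k ∣ Q0 z W := by
        refine (pow_dvd_pow p h5).trans ?_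
        unfold Q0
        exact dvd_prod_of_mem (fun p => p ^ Nat.log p W)
          (mem_filter.2 ⟨mem_range.2 (by omega), hp⟩)
      have h7 : ((p ^ k : ℕ) : ℤ) ∣ y - y' := (Int.natCast_dvd_natCast.2 h6).trans hy
      have h8 : y' = y - (y - y') := by ring
      rw [h8]
      exact dvd_sub hky h7
  exact Nat.dvd_antisymm (key x x' h1 fun p hp hpv => (h2 p hp hpv).1)
    (key x' x (by rw [← dvd_neg, neg_sub]; exact h1) fun p hp hpv => (h2 p hp hpv).2)

/-- discovered primes -/
def Dsc (z W N n : ℕ) : Finset ℕ :=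
  (LP z W).filter fun p => ∃ m, m < n ∧ 1 ≤ m ∧ p ∣ gc (m + 1) (ex N m) N

lemma Dsc_succ (z W N n : ℕ) (hn : 1 ≤ n) :
    Dsc z W N (n + 1) = Dsc z W N n ∪ (LP z W).filter fun p => p ∣ gc (n + 1) (ex N n) N := by
  ext p
  unfold Dsc
  rw [mem_union, mem_filter, mem_filter, mem_filter]
  constructor
  · rintro ⟨h1, m, h2, h3, h4⟩
    rcases Nat.lt_or_ge m n with h | h
    · exact Or.inl ⟨h1, m, h, h3, h4⟩
    · have : m = n := by omega
      subst this
      exact Or.inr ⟨h1, h4⟩
  · rintro (⟨h1, m, h2, h3, h4⟩ | ⟨h1, h2⟩)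
    · exact ⟨h1, m, by omega, h3, h4⟩
    · exact ⟨h1, n, by omega, hn, h2⟩

lemma Dsc_one (z W N : ℕ) : Dsc z W N 1 = ∅ := by
  unfold Dsc
  rw [filter_eq_empty_iff]
  rintro p - ⟨m, h1, h2, -⟩
  omega

lemma Dsc_mono (z W N : ℕ) {m n : ℕ} (h : m ≤ n) : Dsc z W N m ⊆ Dsc z W N n := by
  intro p hp
  unfold Dsc at *
  rw [mem_filter] at *
  obtain ⟨h1, k, h2, h3, h4⟩ := hp
  exact ⟨h1, k, by omega, h3, h4⟩

lemma Dsc_sub (z W N n : ℕ) : Dsc z W N n ⊆ LP z W := filter_subset _ _

/-- the tested residue class -/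
def rs (n e p : ℕ) : ℕ := if n % 2 = 0 then e % p else (p - e % p) % p

lemma rs_lt {n e p : ℕ} (hp : 0 < p) : rs n e p < p := by
  unfold rs; split_ifs <;> exact Nat.mod_lt _ hp

lemma rs_iff {n e p N : ℕ} (hp : 0 < p) : (p : ℤ) ∣ xx n e N ↔ N % p = rs n e p := by
  unfold xx rs
  split_ifs with h
  · rw [← Nat.modEq_iff_dvd]
    exact ⟨fun h => h.symm, fun h => Eq.symm h⟩
  · have e1 : (N : ℤ) + e = ((N + e : ℕ) : ℤ) := by push_cast; ring
    rw [e1, Int.natCast_dvd_natCast, Nat.dvd_iff_mod_eq_zero, Nat.add_mod]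
    have ha := Nat.mod_lt N hp
    have hb := Nat.mod_lt e hp
    set a := N % p
    set b := e % p
    rcases Nat.eq_zero_or_pos b with hb0 | hb0
    · rw [hb0, add_zero, Nat.sub_zero, Nat.mod_self, Nat.mod_eq_of_lt ha]
    · rw [Nat.mod_eq_of_lt (show p - b < p by omega)]
      rcases Nat.lt_or_ge (a + b) p with h1 | h1
      · rw [Nat.mod_eq_of_lt h1]; omega
      · rw [Nat.mod_eq_sub_mod h1, Nat.mod_eq_of_lt (show a + b - p < p by omega)]; omega

/-- `N` belongs to the node of the tree -/
def InN (z W N n e r : ℕ) (D : Finset ℕ) (Om : ℕ → Finset ℕ) : Prop :=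
  N ≡ r [MOD Q0 z W * ∏ p ∈ D, p] ∧ ex N n = e ∧ Dsc z W N n = D ∧
    ∀ p ∈ LP z W, p ∉ D → N % p ∉ Om p

lemma two_large {z W v p q : ℕ} (hW : W < z ^ 2) (hv : 0 < v) (hvW : v ≤ W) (hp : p ∈ LP z W)
    (hq : q ∈ LP z W) (hpv : p ∣ v) (hqv : q ∣ v) : p = q := by
  by_contra hne
  rw [mem_LP] at hp hq
  have hc : Nat.Coprime p q := (Nat.coprime_primes hp.2.2 hq.2.2).2 hne
  have h1 : p * q ∣ v := hc.mul_dvd_of_dvd_of_dvd hpv hqv
  have h2 := Nat.le_of_dvd hv h1
  nlinarith [hp.1, hq.1]

open Classical in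
/-- induction over the tree -/
theorem tree {z W T H : ℕ} (hW : W < z ^ 2) (hT : T + 2 * H ≤ W) (S : Finset ℕ)
    (hS : ∀ N ∈ S, ex N T ≤ H)
    (V : ℕ → ℕ → Finset ℕ → (ℕ → Finset ℕ) → ℝ)
    (Inv : ℕ → ℕ → Finset ℕ → (ℕ → Finset ℕ) → Prop)
    (hV : ∀ n e D Om, Inv n e D Om → 0 ≤ V n e D Om)
    (hend : ∀ e r D Om, Inv T e D Om →
      (((S.filter fun N => InN z W N T e r D Om).card : ℕ) : ℝ) ≤ V T e D Om)
    (hstep : ∀ n e D Om, 1 ≤ n → n < T → e ≤ H → D ⊆ LP z W → Inv n e D Om →
      (∀ r, (((S.filter fun N => InN z W N n e r D Om).card : ℕ) : ℝ) ≤ V n e D Om) ∨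
      ((∀ e', e ≤ e' → Inv (n + 1) e' D Om ∧ V (n + 1) e' D Om ≤ V n e D Om) ∧
        ∀ p ∈ LP z W, p ∉ D → p ∣ vv (n + 1) e → ∀ ρ < p, ρ ∉ Om p → ∀ e1 e2, e ≤ e1 → e ≤ e2 →
          Inv (n + 1) e1 (insert p D) Om ∧
          Inv (n + 1) e2 D (Function.update Om p (insert ρ (Om p))) ∧
          V (n + 1) e1 (insert p D) Om +
            V (n + 1) e2 D (Function.update Om p (insert ρ (Om p))) ≤ V n e D Om)) :
    ∀ k n e r D Om, n + k = T → 1 ≤ n → Inv n e D Om →
      (((S.filter fun N => InN z W N n e r D Om).card : ℕ) : ℝ) ≤ V n e D Om := by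
  intro k
  induction k with
  | zero =>
    intro n e r D Om hn h1 hI
    have : n = T := by omega
    subst this
    exact hend e r D Om hI
  | succ k ih =>
    intro n e r D Om hn h1 hI
    -- the empty case
    rcases (S.filter fun N => InN z W N n e r D Om).eq_empty_or_nonempty with h0 | ⟨N1, hN1⟩
    · rw [h0, card_empty, Nat.cast_zero]; exact hV n e D Om hI
    rw [mem_filter] at hN1
    obtain ⟨hN1S, hN1I⟩ := hN1
    have heH : e ≤ H := by
      rw [← hN1I.2.1]
      exact (ex_mono N1 (by omega)).trans (hS N1 hN1S)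
    have hDL : D ⊆ LP z W := by rw [← hN1I.2.2.1]; exact Dsc_sub z W N1 n
    rcases hstep n e D Om h1 (by omega) heH hDL hI with hdir | ⟨hA, hB⟩
    · exact hdir r
    have hvpos : 0 < vv (n + 1) e := vv_pos (by omega)
    have hvW : vv (n + 1) e ≤ W := by
      unfold vv; split_ifs <;> omega
    -- congruences for the members
    have hcong : ∀ N N' : ℕ, InN z W N n e r D Om → InN z W N' n e r D Om →
        (Q0 z W : ℤ) ∣ xx (n + 1) e N - xx (n + 1) e N' ∧
        ∀ p ∈ D, (p : ℤ) ∣ xx (n + 1) e N - xx (n + 1) e N' := by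
      intro N N' h h'
      have h2 : N' ≡ N [MOD Q0 z W * ∏ p ∈ D, p] := h'.1.trans h.1.symm
      have h3 := Nat.modEq_iff_dvd.1 h2
      have h4 : xx (n + 1) e N - xx (n + 1) e N' = (N : ℤ) - N' := by
        unfold xx; split_ifs <;> ring
      rw [h4]
      refine ⟨(Int.natCast_dvd_natCast.2 (dvd_mul_right _ _)).trans h3, fun p hp => ?_⟩
      exact (Int.natCast_dvd_natCast.2 ((dvd_prod_of_mem _ hp).trans (dvd_mul_left _ _))).trans h3
    have hiff : ∀ N N' : ℕ, InN z W N n e r D Om → InN z W N' n e r D Om → ∀ p ∈ D,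
        ((p : ℤ) ∣ xx (n + 1) e N ↔ (p : ℤ) ∣ xx (n + 1) e N') := by
      intro N N' h h' p hp
      have h5 := (hcong N N' h h').2 p hp
      constructor
      · intro h6
        have : xx (n + 1) e N' = xx (n + 1) e N - (xx (n + 1) e N - xx (n + 1) e N') := by ring
        rw [this]; exact dvd_sub h6 h5
      · intro h6
        have : xx (n + 1) e N = xx (n + 1) e N' + (xx (n + 1) e N - xx (n + 1) e N') := by ring
        rw [this]; exact dvd_add h6 h5
    have hgcd : ∀ N : ℕ, InN z W N n e r D Om → gc (n + 1) (ex N n) N = gc (n + 1) e N := by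
      intro N h; rw [h.2.1]
    have hpgc : ∀ N p : ℕ, p ∣ gc (n + 1) e N ↔ p ∣ vv (n + 1) e ∧ (p : ℤ) ∣ xx (n + 1) e N := by
      intro N p
      unfold gc
      rw [Int.dvd_gcd_iff, Int.natCast_dvd_natCast]
      tauto
    by_cases hex : ∃ p ∈ LP z W, p ∉ D ∧ p ∣ vv (n + 1) e
    · obtain ⟨p, hpL, hpD, hpv⟩ := hex
      have hpp : p.Prime := (mem_LP.1 hpL).2.2
      have huniq : ∀ q ∈ LP z W, q ∣ vv (n + 1) e → q = p := fun q hq hqv =>
        two_large hW hvpos hvW hq hpL hqv hpv
      set ρ := rs (n + 1) e p with hρ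
      have hρp : ρ < p := rs_lt hpp.pos
      -- the members without a hit
      have hgno : ∀ N N' : ℕ, InN z W N n e r D Om → InN z W N' n e r D Om →
          ((p : ℤ) ∣ xx (n + 1) e N ↔ (p : ℤ) ∣ xx (n + 1) e N') →
          gc (n + 1) e N = gc (n + 1) e N' := by
        intro N N' h h' hpx
        apply gcd_det hW hvpos hvW (hcong N N' h h').1
        intro q hq hqv
        rw [huniq q hq hqv]
        exact hpx
      have hno : ∀ Om' : ℕ → Finset ℕ, (∀ N, InN z W N n e r D Om → N % p ≠ ρ →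
          ∀ q ∈ LP z W, q ∉ D → N % q ∉ Om' q) → ∀ N2, InN z W N2 n e r D Om → N2 % p ≠ ρ →
          ∀ N, InN z W N n e r D Om → N % p ≠ ρ →
            InN z W N (n + 1) (ex N2 (n + 1)) r D Om' := by
        intro Om' hOm' N2 h2 h2p N hN hNp
        refine ⟨hN.1, ?_, ?_, hOm' N hN hNp⟩
        · rw [ex_succ N n h1, ex_succ N2 n h1, hgcd N hN, hgcd N2 h2, hN.2.1, h2.2.1,
            hgno N N2 hN h2 ?_]
          rw [rs_iff hpp.pos, rs_iff hpp.pos]
          tauto
        · rw [Dsc_succ z W N n h1, hN.2.2.1, hgcd N hN]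
          rw [union_eq_left]
          intro q hq
          rw [mem_filter, hpgc] at hq
          exfalso
          have := huniq q hq.1 hq.2.1
          subst this
          exact hNp ((rs_iff hpp.pos).1 hq.2.2)
      set Sn := S.filter (fun N => InN z W N n e r D Om) with hSn
      have hsplit : (Sn.card : ℝ) = ((Sn.filter fun N => N % p = ρ).card : ℝ) +
          ((Sn.filter fun N => ¬ N % p = ρ).card : ℝ) := by
        have := card_filter_add_card_filter_not (s := Sn) (fun N => N % p = ρ)
        exact_mod_cast this.symm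
      rw [hsplit]
      by_cases hρO : ρ ∈ Om p
      · -- no hits at all
        have h5 : (Sn.filter fun N => N % p = ρ) = ∅ := by
          rw [filter_eq_empty_iff]
          intro N hN hNp
          rw [hSn, mem_filter] at hN
          exact hN.2.2.2.2 p hpL hpD (by rw [hNp]; exact hρO)
        rw [h5, card_empty, Nat.cast_zero, zero_add]
        have h6 := hA (ex N1 (n + 1)) (by rw [← hN1I.2.1]; exact ex_mono N1 (by omega))
        refine le_trans ?_ ((ih (n + 1) (ex N1 (n + 1)) r D Om (by omega) (by omega) h6.1).trans h6.2)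
        rw [Nat.cast_le]
        apply card_le_card
        intro N hN
        rw [mem_filter, hSn, mem_filter] at hN
        rw [mem_filter]
        refine ⟨hN.1.1, hno Om (fun N hN _ => hN.2.2.2) N1 hN1I ?_ N hN.1.2 hN.2⟩
        intro h7
        exact hN1I.2.2.2 p hpL hpD (by rw [h7]; exact hρO)
      · -- hits
        have hhit : ∃ e1, e ≤ e1 ∧ ((Sn.filter fun N => N % p = ρ).card : ℝ) ≤
            V (n + 1) e1 (insert p D) Om := by
          rcases (Sn.filter fun N => N % p = ρ).eq_empty_or_nonempty with h8 | ⟨N3, hN3⟩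
          · refine ⟨e, le_rfl, ?_⟩
            rw [h8, card_empty, Nat.cast_zero]
            exact hV _ _ _ _ (hB p hpL hpD hpv ρ hρp hρO e e le_rfl le_rfl).1
          · rw [mem_filter, hSn, mem_filter] at hN3
            obtain ⟨⟨hN3S, hN3I⟩, hN3p⟩ := hN3
            have he1 : e ≤ ex N3 (n + 1) := by rw [← hN3I.2.1]; exact ex_mono N3 (by omega)
            refine ⟨ex N3 (n + 1), he1, ?_⟩
            have h9 := (hB p hpL hpD hpv ρ hρp hρO _ _ he1 he1).1
            refine le_trans ?_ (ih (n + 1) (ex N3 (n + 1)) N3 (insert p D) Om (by omega) (by omega) h9)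
            rw [Nat.cast_le]
            apply card_le_card
            intro N hN
            rw [mem_filter, hSn, mem_filter] at hN
            obtain ⟨⟨hNS, hNI⟩, hNp⟩ := hN
            rw [mem_filter]
            refine ⟨hNS, ?_, ?_, ?_, ?_⟩
            · rw [prod_insert hpD, mul_left_comm]
              have hc1 : N ≡ N3 [MOD Q0 z W * ∏ q ∈ D, q] := hNI.1.trans hN3I.1.symm
              have hc2 : N ≡ N3 [MOD p] := by
                show N % p = N3 % p
                rw [hNp, hN3p]
              refine (Nat.modEq_and_modEq_iff_modEq_mul ?_).1 ⟨hc2, hc1⟩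
              apply Nat.Coprime.mul_right
              · unfold Q0
                apply Nat.Coprime.prod_right
                intro q hq
                rw [mem_filter, mem_range] at hq
                apply Nat.Coprime.pow_right
                rw [Nat.coprime_primes hpp hq.2]
                have := (mem_LP.1 hpL).1
                omega
              · apply Nat.Coprime.prod_right
                intro q hq
                rw [Nat.coprime_primes hpp (mem_LP.1 (hDL hq)).2.2]
                rintro rfl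
                exact hpD hq
            · rw [ex_succ N n h1, ex_succ N3 n h1, hgcd N hNI, hgcd N3 hN3I, hNI.2.1, hN3I.2.1,
                hgno N N3 hNI hN3I ?_]
              rw [rs_iff hpp.pos, rs_iff hpp.pos]
              tauto
            · rw [Dsc_succ z W N n h1, hNI.2.2.1, hgcd N hNI]
              ext q
              rw [mem_union, mem_filter, mem_insert, hpgc]
              constructor
              · rintro (h | h)
                · exact Or.inr h
                · exact Or.inl (huniq q h.1 h.2.1)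
              · rintro (rfl | h)
                · exact Or.inr ⟨hpL, hpv, (rs_iff hpp.pos).2 hNp⟩
                · exact Or.inl h
            · intro q hq hqD
              exact hNI.2.2.2 q hq fun h => hqD (mem_insert_of_mem h)
        obtain ⟨e1, he1, h10⟩ := hhit
        have hno2 : ∃ e2, e ≤ e2 ∧ ((Sn.filter fun N => ¬ N % p = ρ).card : ℝ) ≤
            V (n + 1) e2 D (Function.update Om p (insert ρ (Om p))) := by
          rcases (Sn.filter fun N => ¬ N % p = ρ).eq_empty_or_nonempty with h8 | ⟨N3, hN3⟩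
          · refine ⟨e, le_rfl, ?_⟩
            rw [h8, card_empty, Nat.cast_zero]
            exact hV _ _ _ _ (hB p hpL hpD hpv ρ hρp hρO e e le_rfl le_rfl).2.1
          · rw [mem_filter, hSn, mem_filter] at hN3
            obtain ⟨⟨hN3S, hN3I⟩, hN3p⟩ := hN3
            have he1 : e ≤ ex N3 (n + 1) := by rw [← hN3I.2.1]; exact ex_mono N3 (by omega)
            refine ⟨ex N3 (n + 1), he1, ?_⟩
            have h9 := (hB p hpL hpD hpv ρ hρp hρO _ _ he1 he1).2.1
            refine le_trans ?_ (ih (n + 1) (ex N3 (n + 1)) r D _ (by omega) (by omega) h9)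
            rw [Nat.cast_le]
            apply card_le_card
            intro N hN
            rw [mem_filter, hSn, mem_filter] at hN
            rw [mem_filter]
            refine ⟨hN.1.1, hno _ ?_ N3 hN3I hN3p N hN.1.2 hN.2⟩
            intro N' hN' hN'p q hq hqD
            by_cases hqp : q = p
            · subst hqp
              rw [Function.update_self, mem_insert, not_or]
              exact ⟨hN'p, hN'.2.2.2 q hq hqD⟩
            · rw [Function.update_of_ne hqp]
              exact hN'.2.2.2 q hq hqD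
        obtain ⟨e2, he2, h11⟩ := hno2
        have h12 := (hB p hpL hpD hpv ρ hρp hρO e1 e2 he1 he2).2.2
        linarith
    · -- no test
      push Not at hex
      have h6 := hA (ex N1 (n + 1)) (by rw [← hN1I.2.1]; exact ex_mono N1 (by omega))
      refine le_trans ?_ ((ih (n + 1) (ex N1 (n + 1)) r D Om (by omega) (by omega) h6.1).trans h6.2)
      rw [Nat.cast_le]
      apply card_le_card
      intro N hN
      rw [mem_filter] at hN ⊢
      obtain ⟨hNS, hNI⟩ := hN
      have hqD : ∀ q ∈ LP z W, q ∣ vv (n + 1) e → q ∈ D := by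
        intro q hq hqv
        by_contra hqD
        exact hex q hq hqD hqv
      refine ⟨hNS, hNI.1, ?_, ?_, hNI.2.2.2⟩
      · rw [ex_succ N n h1, ex_succ N1 n h1, hgcd N hNI, hgcd N1 hN1I, hNI.2.1, hN1I.2.1]
        have : gc (n + 1) e N = gc (n + 1) e N1 := by
          apply gcd_det hW hvpos hvW (hcong N N1 hNI hN1I).1
          intro q hq hqv
          exact hiff N N1 hNI hN1I q (hqD q hq hqv)
        rw [this]
      · rw [Dsc_succ z W N n h1, hNI.2.2.1, hgcd N hNI, union_eq_left]
        intro q hq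
        rw [mem_filter, hpgc] at hq
        exact hqD q hq.1 hq.2.1

end Pool.Agent.K7.H40.GR
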