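import Mathlib
import Pool.Agent.H646.Sv2
import Pool.Agent.Erdos456.Mertens
import Pool.Agent.K7.H40.GR.Tree

/-!
Lower bounds for the Selberg sum.
-/

set_option autoImplicit false

namespace Pool.Agent.K7.H40.GR

open Finset

/-- the truncated sum -/
noncomputable def PP (S : Finset ℕ) (z : ℕ) (w : ℕ → ℝ) : ℝ :=
  ∑ A ∈ S.powerset with (∏ p ∈ A, p) ≤ z, ∏ p ∈ A, w p

lemma PP_nonneg (S : Finset ℕ) (z : ℕ) (w : ℕ → ℝ) (hw : ∀ p ∈ S, 0 ≤ w p) : 0 ≤ PP S z w := by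
  apply sum_nonneg
  intro A hA
  rw [mem_filter, mem_powerset] at hA
  exact prod_nonneg fun p hp => hw p (hA.1 hp)

lemma comb {S1 S2 : Finset ℕ} (hd : Disjoint S1 S2) {w : ℕ → ℝ} (hw : ∀ p ∈ S1 ∪ S2, 0 ≤ w p)
    {z1 z2 z : ℕ} (hz : z1 * z2 ≤ z) :
    PP S1 z1 w * PP S2 z2 w ≤ PP (S1 ∪ S2) z w := by
  classical
  unfold PP
  rw [sum_mul_sum, ← sum_product']
  have hdis : ∀ x ∈ (S1.powerset.filter fun A => (∏ p ∈ A, p) ≤ z1) ×ˢ
      (S2.powerset.filter fun A => (∏ p ∈ A, p) ≤ z2), x.1 ⊆ S1 ∧ x.2 ⊆ S2 ∧ Disjoint x.1 x.2 ∧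
      (∏ p ∈ x.1, p) ≤ z1 ∧ (∏ p ∈ x.2, p) ≤ z2 := by
    intro x hx
    rw [mem_product, mem_filter, mem_filter, mem_powerset, mem_powerset] at hx
    exact ⟨hx.1.1, hx.2.1, hd.mono hx.1.1 hx.2.1, hx.1.2, hx.2.2⟩
  have hinj : Set.InjOn (fun x : Finset ℕ × Finset ℕ => x.1 ∪ x.2)
      (((S1.powerset.filter fun A => (∏ p ∈ A, p) ≤ z1) ×ˢ
      (S2.powerset.filter fun A => (∏ p ∈ A, p) ≤ z2) : Finset _) : Set _) := by
    intro x hx y hy hxy
    have h1 := hdis x (mem_coe.1 hx)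
    have h2 := hdis y (mem_coe.1 hy)
    simp only at hxy
    rw [disjoint_left] at hd
    have key : ∀ a b c d : Finset ℕ, a ⊆ S1 → b ⊆ S2 → c ⊆ S1 → d ⊆ S2 → a ∪ b = c ∪ d → a ⊆ c ∧ b ⊆ d := by
      intro a b c d ha hb hc hdd h
      constructor
      · intro p hp
        have : p ∈ c ∪ d := by rw [← h]; exact mem_union_left _ hp
        rcases mem_union.1 this with h5 | h5
        · exact h5
        · exact absurd (hdd h5) (hd (ha hp))
      · intro p hp
        have : p ∈ c ∪ d := by rw [← h]; exact mem_union_right _ hp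
        rcases mem_union.1 this with h5 | h5
        · exact absurd (hb hp) (hd (hc h5))
        · exact h5
    have k1 := key _ _ _ _ h1.1 h1.2.1 h2.1 h2.2.1 hxy
    have k2 := key _ _ _ _ h2.1 h2.2.1 h1.1 h1.2.1 hxy.symm
    exact Prod.ext (subset_antisymm k1.1 k2.1) (subset_antisymm k1.2 k2.2)
  calc _ = ∑ x ∈ (S1.powerset.filter fun A => (∏ p ∈ A, p) ≤ z1) ×ˢ
      (S2.powerset.filter fun A => (∏ p ∈ A, p) ≤ z2), ∏ p ∈ x.1 ∪ x.2, w p := by
        apply sum_congr rfl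
        intro x hx
        rw [prod_union (hdis x hx).2.2.1]
    _ = ∑ A ∈ ((S1.powerset.filter fun A => (∏ p ∈ A, p) ≤ z1) ×ˢ
      (S2.powerset.filter fun A => (∏ p ∈ A, p) ≤ z2)).image (fun x => x.1 ∪ x.2),
        ∏ p ∈ A, w p := (sum_image (f := fun A : Finset ℕ => ∏ p ∈ A, w p) hinj).symm
    _ ≤ _ := by
        apply sum_le_sum_of_subset_of_nonneg
        · intro A hA
          rw [mem_image] at hA
          obtain ⟨x, hx, rfl⟩ := hA
          have h := hdis x hx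
          rw [mem_filter, mem_powerset]
          refine ⟨union_subset_union h.1 h.2.1, ?_⟩
          rw [prod_union h.2.2.1]
          exact (Nat.mul_le_mul h.2.2.2.1 h.2.2.2.2).trans hz
        · intro A hA _
          rw [mem_filter, mem_powerset] at hA
          exact prod_nonneg fun p hp => hw p (hA.1 hp)

lemma split_le {S1 S2 : Finset ℕ} (h1 : ∀ p ∈ S1 ∪ S2, 1 ≤ p) {w : ℕ → ℝ}
    (hw : ∀ p ∈ S1 ∪ S2, 0 ≤ w p) (z : ℕ) :
    PP (S1 ∪ S2) z w ≤ (∏ p ∈ S1, (1 + w p)) * PP (S2 \ S1) z w := by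
  classical
  unfold PP
  rw [prod_one_add, sum_mul_sum, ← sum_product']
  have hinj : Set.InjOn (fun A : Finset ℕ => (A ∩ S1, A \ S1))
      (((S1 ∪ S2).powerset.filter fun A => (∏ p ∈ A, p) ≤ z : Finset _) : Set _) := by
    intro A _ B _ h
    simp only [Prod.mk.injEq] at h
    rw [← sdiff_union_inter A S1, ← sdiff_union_inter B S1, h.1, h.2]
  calc _ = ∑ A ∈ (S1 ∪ S2).powerset with (∏ p ∈ A, p) ≤ z,
        (∏ p ∈ A ∩ S1, w p) * ∏ p ∈ A \ S1, w p := by
        apply sum_congr rfl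
        intro A _
        rw [mul_comm, ← prod_union (disjoint_sdiff_inter A S1), sdiff_union_inter]
    _ = ∑ x ∈ ((S1 ∪ S2).powerset.filter fun A => (∏ p ∈ A, p) ≤ z).image
          (fun A : Finset ℕ => (A ∩ S1, A \ S1)), (∏ p ∈ x.1, w p) * ∏ p ∈ x.2, w p :=
        (sum_image (g := fun A : Finset ℕ => (A ∩ S1, A \ S1))
          (f := fun x : Finset ℕ × Finset ℕ => (∏ p ∈ x.1, w p) * ∏ p ∈ x.2, w p) hinj).symm
    _ ≤ _ := by
        apply sum_le_sum_of_subset_of_nonneg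
        · intro x hx
          rw [mem_image] at hx
          obtain ⟨A, hA, rfl⟩ := hx
          rw [mem_filter, mem_powerset] at hA
          rw [mem_product, mem_powerset, mem_filter, mem_powerset]
          refine ⟨inter_subset_right, ?_, ?_⟩
          · intro p hp
            rw [mem_sdiff] at hp
            have := hA.1 hp.1
            rw [mem_union] at this
            rw [mem_sdiff]
            tauto
          · refine le_trans ?_ hA.2
            exact prod_le_prod_of_subset_of_one_le' sdiff_subset fun p hp _ => h1 p (hA.1 hp)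
        · intro x hx _
          rw [mem_product, mem_powerset, mem_filter, mem_powerset] at hx
          apply mul_nonneg
          · exact prod_nonneg fun p hp => hw p (mem_union_left _ (hx.1 hp))
          · exact prod_nonneg fun p hp => hw p (mem_union_right _ (sdiff_subset (hx.2.1 hp)))

/-- the lower range -/
lemma low1 (S : Finset ℕ) (W z : ℕ) (w : ℕ → ℝ) (hW : 3 ≤ W) (hS : ∀ p ∈ S, p.Prime ∧ p ≤ W)
    (hw : ∀ p ∈ S, 0 ≤ w p) (hz : 1 ≤ z)
    (h : Real.log W * (3 * ∑ p ∈ S, w p + 1) ≤ Real.log z) :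
    (1 / 2) * ∏ p ∈ S, (1 + w p) ≤ PP S z w := by
  have hWR : (3 : ℝ) ≤ W := by exact_mod_cast hW
  have hlog : 0 < Real.log W := Real.log_pos (by linarith)
  have hzR : (0 : ℝ) < z := by exact_mod_cast hz
  have h1 := Pool.Agent.H646.Sv2M.J14_tail S (fun p hp => (hS p hp).1) z hz w hw (1 / Real.log W)
    (by positivity)
  have h2 := Finset.sum_filter_add_sum_filter_not S.powerset
    (fun S => (∏ p ∈ S, p) ≤ z) (fun S => ∏ p ∈ S, w p)
  rw [← Finset.prod_one_add] at h2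
  have h3 : ∏ p ∈ S, (1 + w p * (p : ℝ) ^ (1 / Real.log W)) ≤ Real.exp (3 * ∑ p ∈ S, w p) := by
    rw [mul_sum, Real.exp_sum]
    apply prod_le_prod
    · intro p hp
      have := hw p hp
      positivity
    · intro p hp
      have hp0 : (0 : ℝ) < p := by exact_mod_cast (hS p hp).1.pos
      have e1 : (p : ℝ) ^ (1 / Real.log W) ≤ 3 := by
        rw [Real.rpow_def_of_pos hp0]
        have e2 : Real.log p ≤ Real.log W := Real.log_le_log hp0 (by exact_mod_cast (hS p hp).2)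
        have e3 : Real.log p * (1 / Real.log W) ≤ 1 := by
          rw [mul_one_div, div_le_one hlog]; exact e2
        calc Real.exp (Real.log p * (1 / Real.log W)) ≤ Real.exp 1 := Real.exp_le_exp.2 e3
          _ ≤ 3 := by linarith [Real.exp_one_lt_d9]
      have e4 := Real.add_one_le_exp (3 * w p)
      have e5 : w p * (p : ℝ) ^ (1 / Real.log W) ≤ w p * 3 := mul_le_mul_of_nonneg_left e1 (hw p hp)
      linarith
  have h4 : (z : ℝ) ^ (-(1 / Real.log W)) ≤ Real.exp (-(3 * ∑ p ∈ S, w p + 1)) := by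
    rw [Real.rpow_def_of_pos hzR]
    apply Real.exp_le_exp.2
    have : 3 * ∑ p ∈ S, w p + 1 ≤ Real.log z / Real.log W := by
      rw [le_div_iff₀ hlog]; linarith
    have e : Real.log z * -(1 / Real.log W) = -(Real.log z / Real.log W) := by ring
    rw [e]; linarith
  have h5 : (z : ℝ) ^ (-(1 / Real.log W)) * ∏ p ∈ S, (1 + w p * (p : ℝ) ^ (1 / Real.log W)) ≤ 1 / 2 := by
    calc _ ≤ Real.exp (-(3 * ∑ p ∈ S, w p + 1)) * Real.exp (3 * ∑ p ∈ S, w p) := by
          apply mul_le_mul h4 h3 _ (Real.exp_pos _).le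
          apply prod_nonneg
          intro p hp
          have := hw p hp
          positivity
      _ = Real.exp (-1) := by rw [← Real.exp_add]; congr 1; ring
      _ ≤ 1 / 2 := by
          rw [Real.exp_neg, one_div]
          apply inv_anti₀ (by norm_num)
          linarith [Real.exp_one_gt_d9]
  have h6 : (1 : ℝ) ≤ ∏ p ∈ S, (1 + w p) := by
    have : (1 : ℝ) = ∏ _p ∈ S, (1 : ℝ) := by simp
    rw [this]
    apply prod_le_prod
    · intro _ _; norm_num
    · intro p hp; linarith [hw p hp]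
  have h7 : PP S z w = ∑ A ∈ S.powerset with (∏ p ∈ A, p) ≤ z, ∏ p ∈ A, w p := rfl
  rw [h7]
  linarith

/-- the upper range -/
lemma low2 : ∃ E : ℕ, 1 ≤ E ∧ ∃ y₀ : ℕ, ∀ W y z : ℕ, 3 ≤ W → W ≤ y → y₀ ≤ y → y ^ E ≤ z →
    (1 / 2) * ∏ p ∈ LP W y, (1 - 2 / (p : ℝ))⁻¹ ≤ PP (LP W y) z (fun p => 2 / ((p : ℝ) - 2)) := by
  classical
  obtain ⟨E, hE, y₀, h⟩ := Pool.Agent.H646.Sv2M.rankin_lower 2 (by norm_num)
  refine ⟨E, hE, y₀, ?_⟩
  intro W y z hW hWy hy hz
  have h1 := h y hy (fun _ => 2) (fun p _ => by simp) z hz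
  have hPR : Pool.Agent.H646.PR 2 y = LP 2 W ∪ LP W y := by
    ext p
    unfold Pool.Agent.H646.PR LP
    simp only [mem_filter, mem_Ioc, mem_union]
    constructor
    · rintro ⟨⟨a, b⟩, c⟩
      rcases Nat.lt_or_ge W p with h | h
      · exact Or.inr ⟨⟨h, b⟩, c⟩
      · exact Or.inl ⟨⟨a, h⟩, c⟩
    · rintro (⟨⟨a, b⟩, c⟩ | ⟨⟨a, b⟩, c⟩)
      · exact ⟨⟨a, by omega⟩, c⟩
      · exact ⟨⟨by omega, b⟩, c⟩
  have hdisj : Disjoint (LP 2 W) (LP W y) := by
    rw [disjoint_left]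
    intro p hp hp'
    rw [mem_LP] at hp hp'
    omega
  rw [hPR, Pool.Agent.H646.Sv2M.J14_sum _ (fun p hp => by
    rcases mem_union.1 hp with h | h
    · exact (mem_LP.1 h).2.2
    · exact (mem_LP.1 h).2.2)] at h1
  have hp3 : ∀ p ∈ LP 2 W ∪ LP W y, (3 : ℝ) ≤ p := by
    intro p hp
    rcases mem_union.1 hp with h | h
    · have := (mem_LP.1 h).1; exact_mod_cast this
    · have := (mem_LP.1 h).1
      have h3 : 3 ≤ p := by omega
      exact_mod_cast h3
  have h2 := split_le (S1 := LP 2 W) (S2 := LP W y) (w := fun p => 2 / ((p : ℝ) - 2))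
    (fun p hp => by
      have := hp3 p hp
      have h3 : (1 : ℝ) ≤ p := by linarith
      exact_mod_cast h3)
    (fun p hp => by
      have := hp3 p hp
      apply div_nonneg (by norm_num) (by linarith)) z
  have e1 : LP W y \ LP 2 W = LP W y := Finset.sdiff_eq_self_of_disjoint hdisj.symm
  rw [e1] at h2
  rw [prod_union hdisj] at h1
  have e2 : ∏ p ∈ LP 2 W, (1 + 2 / ((p : ℝ) - 2)) = ∏ p ∈ LP 2 W, (1 - ((2 : ℕ) : ℝ) / p)⁻¹ := by
    apply prod_congr rfl
    intro p hp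
    have := hp3 p (mem_union_left _ hp)
    have h5 : (p : ℝ) - 2 ≠ 0 := by linarith
    have h6 : (p : ℝ) ≠ 0 := by linarith
    push_cast
    field_simp
    ring
  rw [e2] at h2
  have hpos : 0 < ∏ p ∈ LP 2 W, (1 - ((2 : ℕ) : ℝ) / p)⁻¹ := by
    apply prod_pos
    intro p hp
    have := hp3 p (mem_union_left _ hp)
    apply inv_pos.2
    push_cast
    have h6 : (0 : ℝ) < p := by linarith
    rw [sub_pos, div_lt_one h6]
    linarith
  have h3 : 1 / 2 * ((∏ p ∈ LP 2 W, (1 - ((2 : ℕ) : ℝ) / p)⁻¹) * ∏ p ∈ LP W y, (1 - ((2 : ℕ) : ℝ) / p)⁻¹) ≤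
      (∏ p ∈ LP 2 W, (1 - ((2 : ℕ) : ℝ) / p)⁻¹) * PP (LP W y) z (fun p => 2 / ((p : ℝ) - 2)) := by
    refine h1.trans (le_trans (le_of_eq ?_) h2)
    unfold PP
    push_cast
    rfl
  have h4 : (∏ p ∈ LP 2 W, (1 - ((2 : ℕ) : ℝ) / p)⁻¹) * (1 / 2 * ∏ p ∈ LP W y, (1 - ((2 : ℕ) : ℝ) / p)⁻¹) ≤
      (∏ p ∈ LP 2 W, (1 - ((2 : ℕ) : ℝ) / p)⁻¹) * PP (LP W y) z (fun p => 2 / ((p : ℝ) - 2)) := by
    linarith
  have h5 := le_of_mul_le_mul_left h4 hpos
  push_cast at h5
  exact h5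

/-- Mertens -/
lemma mert : ∃ C : ℝ, 1 ≤ C ∧ ∀ W y : ℕ, 3 ≤ W → W ≤ y →
    ∏ p ∈ LP W y, (1 - 2 / (p : ℝ)) ≤ C * (Real.log W / Real.log y) ^ 2 := by
  obtain ⟨C, hC⟩ := Pool.Agent.Erdos456.Mert.mertens_inv
  have hC0 : 0 ≤ C := (abs_nonneg _).trans (hC 3 le_rfl)
  refine ⟨Real.exp (4 * C), Real.one_le_exp (by linarith), ?_⟩
  intro W y hW hWy
  have hW3 : (3 : ℝ) ≤ W := by exact_mod_cast hW
  have hy3 : (3 : ℝ) ≤ y := by exact_mod_cast hW.trans hWy
  have hlW : 0 < Real.log W := Real.log_pos (by linarith)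
  have hly : 0 < Real.log y := Real.log_pos (by linarith)
  have h1 := hC W hW
  have h2 := hC y (hW.trans hWy)
  rw [abs_le] at h1 h2
  have h3 : ∑ p ∈ (Icc 1 y).filter Nat.Prime, (1 : ℝ) / p =
      ∑ p ∈ (Icc 1 W).filter Nat.Prime, (1 : ℝ) / p + ∑ p ∈ LP W y, (1 : ℝ) / p := by
    rw [← sum_union]
    · congr 1
      ext p
      unfold LP
      simp only [mem_filter, mem_Icc, mem_union, mem_Ioc]
      constructor
      · rintro ⟨⟨a, b⟩, c⟩
        rcases Nat.lt_or_ge W p with h | h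
        · exact Or.inr ⟨⟨h, b⟩, c⟩
        · exact Or.inl ⟨⟨a, h⟩, c⟩
      · rintro (⟨⟨a, b⟩, c⟩ | ⟨⟨a, b⟩, c⟩)
        · exact ⟨⟨a, by omega⟩, c⟩
        · exact ⟨⟨by omega, b⟩, c⟩
    · rw [disjoint_left]
      intro p hp hp'
      rw [mem_filter, mem_Icc] at hp
      rw [mem_LP] at hp'
      omega
  have h4 : Real.log (Real.log y) - Real.log (Real.log W) - 2 * C ≤ ∑ p ∈ LP W y, (1 : ℝ) / p := by
    linarith
  have h5 : ∏ p ∈ LP W y, (1 - 2 / (p : ℝ)) ≤ Real.exp (-(2 * ∑ p ∈ LP W y, (1 : ℝ) / p)) := by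
    rw [mul_sum, ← sum_neg_distrib, Real.exp_sum]
    apply prod_le_prod
    · intro p hp
      have h6 := (mem_LP.1 hp).1
      have h7 : (3 : ℝ) ≤ p := by exact_mod_cast (by omega : 3 ≤ p)
      have h8 : (0 : ℝ) < p := by linarith
      rw [sub_nonneg, div_le_one h8]
      linarith
    · intro p _
      have := Real.add_one_le_exp (-(2 * ((1 : ℝ) / p)))
      have e : 1 - 2 / (p : ℝ) = -(2 * ((1 : ℝ) / p)) + 1 := by ring
      rw [e]; exact this
  refine h5.trans ?_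
  have h6 : Real.exp (4 * C) * (Real.log W / Real.log y) ^ 2 =
      Real.exp (4 * C + 2 * (Real.log (Real.log W) - Real.log (Real.log y))) := by
    rw [Real.exp_add, two_mul, Real.exp_add, Real.exp_sub, Real.exp_log hlW, Real.exp_log hly]
    ring
  rw [h6]
  apply Real.exp_le_exp.2
  linarith

end Pool.Agent.K7.H40.GR
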