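import Mathlib
import Pool.Agent.H646.Sv1
import Pool.Agent.H646.Sv2
import Pool.Agent.H307R2.OP.SV

/-!
Selberg's sieve for excluded residue classes, in a residue class.
-/

set_option autoImplicit false

namespace Pool.Agent.K7.H40.GR

open Finset ArithmeticFunction

/-- data of the sieve -/
structure SD where
  U : ℕ
  m : ℕ
  a : ℕ
  S : Finset ℕ
  Om : ℕ → Finset ℕ
  hm : 1 ≤ m
  hS : ∀ p ∈ S, p.Prime ∧ Nat.Coprime p m ∧ (∀ x ∈ Om p, x < p) ∧ 1 ≤ (Om p).card ∧ (Om p).card < p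

namespace SD

variable (s : SD)

/-- the product of the primes with an excluded class -/
def f (u : ℕ) : ℕ := ∏ p ∈ s.S.filter (fun p => u % p ∈ s.Om p), p

/-- the numbers -/
def B : Finset ℕ := (range (s.U + 1)).filter fun u => u % s.m = s.a % s.m

/-- the product of the primes -/
def PS : ℕ := ∏ p ∈ s.S, p

lemma PS_sqf : Squarefree s.PS := by
  refine Finset.squarefree_prod_of_pairwise_isCoprime (fun p hp q hq hpq => ?_) (fun p hp => ?_)
  · exact Nat.coprime_iff_isRelPrime.mp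
      ((Nat.coprime_primes (s.hS p hp).1 (s.hS q hq).1).mpr hpq)
  · exact (s.hS p hp).1.prime.squarefree

lemma mem_of_dvd {p : ℕ} (hp : p.Prime) (h : p ∣ s.PS) : p ∈ s.S := by
  unfold PS at h
  rw [Prime.dvd_finsetProd_iff hp.prime] at h
  obtain ⟨q, hq, hpq⟩ := h
  rw [(Nat.prime_dvd_prime_iff_eq hp (s.hS q hq).1).mp hpq]
  exact hq

/-- density -/
noncomputable def nuS : ArithmeticFunction ℝ :=
  ArithmeticFunction.prodPrimeFactors (fun p => ((s.Om p).card : ℝ) / p)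

lemma nuS_prime {p : ℕ} (hp : p.Prime) : s.nuS p = ((s.Om p).card : ℝ) / p := by
  unfold nuS
  rw [ArithmeticFunction.prodPrimeFactors_apply hp.ne_zero, hp.primeFactors, prod_singleton]

/-- the instance -/
noncomputable def sv : BoundingSieve where
  support := s.B.image s.f
  prodPrimes := s.PS
  prodPrimes_squarefree := s.PS_sqf
  weights := fun k => ((s.B.filter fun u => s.f u = k).card : ℝ)
  weights_nonneg := fun _ => Nat.cast_nonneg _
  totalMass := ((s.U : ℝ) + 1) / s.m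
  nu := s.nuS
  nu_mult := ArithmeticFunction.IsMultiplicative.prodPrimeFactors _
  nu_pos_of_prime := by
    intro p hp hpd
    rw [s.nuS_prime hp]
    have h1 : (0 : ℝ) < (s.Om p).card := by exact_mod_cast (s.hS p (s.mem_of_dvd hp hpd)).2.2.2.1
    have h2 : (0 : ℝ) < p := by exact_mod_cast hp.pos
    positivity
  nu_lt_one_of_prime := by
    intro p hp hpd
    rw [s.nuS_prime hp]
    have h2 : (0 : ℝ) < p := by exact_mod_cast hp.pos
    rw [div_lt_one h2]
    exact_mod_cast (s.hS p (s.mem_of_dvd hp hpd)).2.2.2.2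

lemma sum_image_w (q : ℕ → Prop) [DecidablePred q] :
    ∑ k ∈ s.B.image s.f, (if q k then ((s.B.filter fun u => s.f u = k).card : ℝ) else 0) =
      ((s.B.filter fun u => q (s.f u)).card : ℝ) := by
  have h := Finset.sum_comp (s := s.B) (fun k => if q k then (1 : ℝ) else 0) s.f
  rw [card_filter]
  push_cast
  rw [h]
  apply sum_congr rfl
  intro k _
  split_ifs <;> simp

lemma dvd_f {p u : ℕ} (hp : p.Prime) (hpS : p ∈ s.S) : p ∣ s.f u ↔ u % p ∈ s.Om p := by
  unfold f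
  rw [Prime.dvd_finsetProd_iff hp.prime]
  constructor
  · rintro ⟨q, hq, hpq⟩
    rw [mem_filter] at hq
    have := (Nat.prime_dvd_prime_iff_eq hp (s.hS q hq.1).1).1 hpq
    subst this
    exact hq.2
  · intro h
    exact ⟨p, mem_filter.2 ⟨hpS, h⟩, dvd_rfl⟩

lemma dvd_f' {l u : ℕ} (hl : l ∣ s.PS) : l ∣ s.f u ↔ ∀ p ∈ l.primeFactors, u % p ∈ s.Om p := by
  have hsq := s.PS_sqf.squarefree_of_dvd hl
  have hmem : ∀ p ∈ l.primeFactors, p.Prime ∧ p ∈ s.S := fun p hp =>
    ⟨Nat.prime_of_mem_primeFactors hp, s.mem_of_dvd (Nat.prime_of_mem_primeFactors hp)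
      ((Nat.dvd_of_mem_primeFactors hp).trans hl)⟩
  constructor
  · intro h p hp
    exact (s.dvd_f (hmem p hp).1 (hmem p hp).2).1 ((Nat.dvd_of_mem_primeFactors hp).trans h)
  · intro h
    rw [← Nat.prod_primeFactors_of_squarefree hsq]
    apply Finset.prod_primes_dvd
    · intro p hp; exact (hmem p hp).1.prime
    · intro p hp; exact (s.dvd_f (hmem p hp).1 (hmem p hp).2).2 (h p hp)

lemma nuS_eq {l : ℕ} (hl : l ∣ s.PS) : s.nuS l = ∏ p ∈ l.primeFactors, ((s.Om p).card : ℝ) / p := by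
  have hl0 : l ≠ 0 := fun hc => s.PS_sqf.ne_zero (by rw [hc] at hl; exact zero_dvd_iff.mp hl)
  unfold nuS
  rw [ArithmeticFunction.prodPrimeFactors_apply hl0]

lemma rem_le (l : ℕ) (hl : l ∣ s.sv.prodPrimes) : |s.sv.rem l| ≤ l := by
  have hl' : l ∣ s.PS := hl
  have hsq := s.PS_sqf.squarefree_of_dvd hl'
  have hmem : ∀ p ∈ l.primeFactors, p ∈ s.S := fun p hp =>
    s.mem_of_dvd (Nat.prime_of_mem_primeFactors hp) ((Nat.dvd_of_mem_primeFactors hp).trans hl')
  unfold BoundingSieve.rem BoundingSieve.multSum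
  change |(∑ k ∈ s.B.image s.f, if l ∣ k then ((s.B.filter fun u => s.f u = k).card : ℝ) else 0) -
    s.nuS l * (((s.U : ℝ) + 1) / s.m)| ≤ l
  have h1 := s.sum_image_w (fun k => l ∣ k)
  have h2 : (∑ k ∈ s.B.image s.f, if l ∣ k then ((s.B.filter fun u => s.f u = k).card : ℝ) else 0) =
      (((range (s.U + 1)).filter (fun u => u % s.m = s.a % s.m ∧
        ∀ p ∈ l.primeFactors, u % p ∈ s.Om p)).card : ℝ) := by
    rw [h1]
    unfold B
    rw [filter_filter]
    congr 2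
    apply filter_congr
    intro u _
    rw [s.dvd_f' hl']
  rw [h2, s.nuS_eq hl']
  have h3 := Pool.Agent.H307R2.OP.SV.count_A s.U s.Om l.primeFactors s.m s.a s.hm (fun p hp =>
    ⟨(s.hS p (hmem p hp)).1, (s.hS p (hmem p hp)).2.1, (s.hS p (hmem p hp)).2.2.1⟩)
  rw [mul_comm]
  refine h3.trans ?_
  calc ∏ p ∈ l.primeFactors, ((s.Om p).card : ℝ) ≤ ∏ p ∈ l.primeFactors, (p : ℝ) := by
        apply prod_le_prod
        · intro p _; positivity
        · intro p hp
          exact_mod_cast (s.hS p (hmem p hp)).2.2.2.2.le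
    _ = l := by
        have := Nat.prod_primeFactors_of_squarefree hsq
        rw [← Nat.cast_prod, this]

lemma nu_inv (l : ℕ) (hl : l ∣ s.sv.prodPrimes) : (s.sv.nu l)⁻¹ ≤ l := by
  have hl' : l ∣ s.PS := hl
  have hsq := s.PS_sqf.squarefree_of_dvd hl'
  have hmem : ∀ p ∈ l.primeFactors, p ∈ s.S := fun p hp =>
    s.mem_of_dvd (Nat.prime_of_mem_primeFactors hp) ((Nat.dvd_of_mem_primeFactors hp).trans hl')
  change (s.nuS l)⁻¹ ≤ l
  rw [s.nuS_eq hl', ← prod_inv_distrib]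
  conv_rhs => rw [← Nat.prod_primeFactors_of_squarefree hsq]
  push_cast
  apply prod_le_prod
  · intro p _; positivity
  · intro p hp
    rw [inv_div]
    have h1 : (1 : ℝ) ≤ (s.Om p).card := by exact_mod_cast (s.hS p (hmem p hp)).2.2.2.1
    exact div_le_self (Nat.cast_nonneg p) h1

lemma st_eq (l : ℕ) (hl : l ∣ s.PS) :
    s.sv.selbergTerms l = ∏ p ∈ l.primeFactors, ((s.Om p).card : ℝ) / (p - (s.Om p).card) := by
  have hmem : ∀ p ∈ l.primeFactors, p ∈ s.S := fun p hp =>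
    s.mem_of_dvd (Nat.prime_of_mem_primeFactors hp) ((Nat.dvd_of_mem_primeFactors hp).trans hl)
  rw [BoundingSieve.selbergTerms_apply]
  change s.nuS l * ∏ p ∈ l.primeFactors, (1 - s.nuS p)⁻¹ = _
  rw [s.nuS_eq hl, ← prod_mul_distrib]
  apply prod_congr rfl
  intro p hp
  have hpp := Nat.prime_of_mem_primeFactors hp
  rw [s.nuS_prime hpp]
  have h2 : (0 : ℝ) < p := by exact_mod_cast hpp.pos
  have h3 : ((s.Om p).card : ℝ) < p := by exact_mod_cast (s.hS p (hmem p hp)).2.2.2.2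
  have h4 : (p : ℝ) - (s.Om p).card ≠ 0 := (sub_pos.mpr h3).ne'
  have h5 : 1 - ((s.Om p).card : ℝ) / p = (p - (s.Om p).card) / p := by field_simp
  rw [h5, inv_div]
  field_simp

lemma sifted_ge : (((range (s.U + 1)).filter (fun u => u % s.m = s.a % s.m ∧
    ∀ p ∈ s.S, u % p ∉ s.Om p)).card : ℝ) ≤ s.sv.siftedSum := by
  unfold BoundingSieve.siftedSum
  change _ ≤ ∑ k ∈ s.B.image s.f, (if Nat.Coprime s.PS k then
    ((s.B.filter fun u => s.f u = k).card : ℝ) else 0)
  have h1 := s.sum_image_w (fun k => Nat.Coprime s.PS k)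
  have h2 : (∑ k ∈ s.B.image s.f, if Nat.Coprime s.PS k then
      ((s.B.filter fun u => s.f u = k).card : ℝ) else 0) =
      ((s.B.filter fun u => Nat.Coprime s.PS (s.f u)).card : ℝ) := h1
  rw [h2, Nat.cast_le]
  apply card_le_card
  intro u hu
  rw [mem_filter] at hu
  rw [mem_filter]
  unfold B
  rw [mem_filter]
  refine ⟨⟨hu.1, hu.2.1⟩, ?_⟩
  have : s.f u = 1 := by
    unfold f
    rw [filter_eq_empty_iff.2 (fun p hp => hu.2.2 p hp), prod_empty]
  rw [this]
  exact Nat.coprime_one_right _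

end SD

/-- Selberg's sieve for residue classes -/
theorem selb (s : SD) (z : ℕ) (hz : 1 ≤ z) :
    (((range (s.U + 1)).filter (fun u => u % s.m = s.a % s.m ∧
      ∀ p ∈ s.S, u % p ∉ s.Om p)).card : ℝ) ≤
      (((s.U : ℝ) + 1) / s.m) / (∑ A ∈ s.S.powerset with (∏ p ∈ A, p) ≤ z,
        ∏ p ∈ A, ((s.Om p).card : ℝ) / (p - (s.Om p).card)) + (z : ℝ) ^ 6 := by
  have h1 := Pool.Agent.H646.Sel.selberg_bound (s := s.sv) (z := z) hz
    (fun l hl => s.nu_inv l hl) (fun l hl => s.rem_le l hl)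
  refine s.sifted_ge.trans (h1.trans (le_of_eq ?_))
  have h2 : Pool.Agent.H646.Sel.GS s.sv z = ∑ A ∈ s.S.powerset with (∏ p ∈ A, p) ≤ z,
        ∏ p ∈ A, ((s.Om p).card : ℝ) / (p - (s.Om p).card) := by
    unfold Pool.Agent.H646.Sel.GS
    have h3 := Pool.Agent.H646.Sv2M.J14_sum s.S (fun p hp => (s.hS p hp).1) z
      (fun p => ((s.Om p).card : ℝ) / (p - (s.Om p).card))
    rw [← h3]
    apply sum_congr rfl
    intro l hl
    rw [mem_filter, Nat.mem_divisors] at hl
    exact s.st_eq l hl.1.1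
  rw [h2]
  rfl

end Pool.Agent.K7.H40.GR
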