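import Mathlib
import Pool.Agent.K7.H40.GR.Sel
import Pool.Agent.K7.H40.GR.Low

/-!
The bound for one leaf of the tree.
-/

set_option autoImplicit false

namespace Pool.Agent.K7.H40.GR

open Finset

lemma cop_Q0 {z W p : ℕ} (hp : p.Prime) (h : z < p ∨ W < p) : Nat.Coprime p (Q0 z W) := by
  unfold Q0
  apply Nat.Coprime.prod_right
  intro q hq
  rw [mem_filter, mem_range] at hq
  by_cases hqp : q = p
  · subst hqp
    have hW : W < q := by omega
    rw [Nat.log_of_lt hW, pow_zero]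
    exact Nat.coprime_one_right _
  · apply Nat.Coprime.pow_right
    exact (Nat.coprime_primes hp hq.2).2 (fun h => hqp h.symm)

theorem leaf : ∃ C : ℝ, 1 ≤ C ∧ ∃ E : ℕ, 1 ≤ E ∧ ∃ y₀ : ℕ,
    ∀ (z0 W y z1 z2 X r e : ℕ) (D : Finset ℕ) (Om : ℕ → Finset ℕ) (S' : Finset ℕ),
    3 ≤ W → W ≤ y → y₀ ≤ y → y ^ E ≤ z2 → 1 ≤ z1 → 10 * W ≤ z0 ^ 2 → 1 ≤ e → 2 * e < W →
    D ⊆ LP z0 W → (∀ p ∈ LP z0 W, Om p ⊆ range p ∧ (Om p).card ≤ W / p) →
    Real.log W * (3 * (10 / 9 * (W * ∑ p ∈ LP z0 W, 1 / (p : ℝ) ^ 2)) + 1) ≤ Real.log z1 →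
    (∀ N ∈ S', N ≤ X ∧ N ≡ r [MOD Q0 z0 W * ∏ p ∈ D, p] ∧ (∀ p ∈ LP z0 W, p ∉ D → N % p ∉ Om p) ∧
      y + e < N ∧ (N - e).Prime ∧ (N + e).Prime) →
    (S'.card : ℝ) ≤ 4 * C * ((((X : ℝ) + 1) / (Q0 z0 W * ∏ p ∈ D, (p : ℝ))) *
      (∏ p ∈ LP z0 W \ D, (1 - ((Om p).card : ℝ) / p)) * (Real.log W / Real.log y) ^ 2) +
      ((z1 * z2 : ℕ) : ℝ) ^ 6 := by
  classical
  obtain ⟨C, hC, hmert⟩ := mert
  obtain ⟨E, hE, y₀, hlow⟩ := low2
  refine ⟨C, hC, E, hE, max y₀ 3, ?_⟩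
  intro z0 W y z1 z2 X r e D Om S' hW hWy hy hyz hz1 hWz he heW hDL hOm hlog hS'
  have hy0 : y₀ ≤ y := (le_max_left _ _).trans hy
  have hy3 : 3 ≤ y := (le_max_right _ _).trans hy
  set Om' : ℕ → Finset ℕ := fun p => if p ≤ W then Om p else {e, p - e} with hOm'
  set S1 : Finset ℕ := (LP z0 W \ D).filter (fun p => 1 ≤ (Om p).card) with hS1
  set S2 : Finset ℕ := LP W y with hS2
  have hS1m : ∀ p ∈ S1, p ∈ LP z0 W ∧ p ∉ D ∧ 1 ≤ (Om p).card := by
    intro p hp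
    rw [hS1, mem_filter, mem_sdiff] at hp
    exact ⟨hp.1.1, hp.1.2, hp.2⟩
  have hdisj : Disjoint S1 S2 := by
    rw [disjoint_left]
    intro p hp hp'
    have h1 := mem_LP.1 (hS1m p hp).1
    have h2 := mem_LP.1 hp'
    omega
  have hom1 : ∀ p ∈ S1, Om' p = Om p := by
    intro p hp
    have h1 := mem_LP.1 (hS1m p hp).1
    simp only [hOm']
    rw [if_pos h1.2.1]
  have hom2 : ∀ p ∈ S2, Om' p = {e, p - e} := by
    intro p hp
    have h1 := mem_LP.1 hp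
    simp only [hOm']
    rw [if_neg (by omega)]
  have hc2 : ∀ p ∈ S2, (Om' p).card = 2 := by
    intro p hp
    rw [hom2 p hp, card_pair]
    have h1 := mem_LP.1 hp
    omega
  -- sizes
  have hsize : ∀ p ∈ LP z0 W, 10 * (Om p).card ≤ p := by
    intro p hp
    have h1 := (hOm p hp).2
    have h2 := mem_LP.1 hp
    have h3 : 10 * (W / p) ≤ p := by
      have h4 : W / p * p ≤ W := Nat.div_mul_le_self W p
      by_contra hcon
      push Not at hcon
      have h5 : p * p < 10 * (W / p) * p := Nat.mul_lt_mul_of_pos_right hcon h2.2.2.pos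
      have h6 : z0 ^ 2 < p * p := by nlinarith [h2.1]
      nlinarith
    omega
  have hDpos : 0 < ∏ p ∈ D, p := prod_pos fun p hp => (mem_LP.1 (hDL hp)).2.2.pos
  have hPpos : 0 < Q0 z0 W * ∏ p ∈ D, p := Nat.mul_pos (Q0_pos _ _) hDpos
  have hcopD : ∀ p : ℕ, p.Prime → p ∉ D → Nat.Coprime p (∏ q ∈ D, q) := by
    intro p hp hpD
    apply Nat.Coprime.prod_right
    intro q hq
    rw [Nat.coprime_primes hp (mem_LP.1 (hDL hq)).2.2]
    rintro rfl
    exact hpD hq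
  set s : SD :=
    { U := X, m := Q0 z0 W * ∏ p ∈ D, p, a := r, S := S1 ∪ S2, Om := Om', hm := hPpos
      hS := by
        intro p hp
        rcases mem_union.1 hp with h | h
        · have h1 := hS1m p h
          have h2 := mem_LP.1 h1.1
          rw [hom1 p h]
          refine ⟨h2.2.2, Nat.Coprime.mul_right (cop_Q0 h2.2.2 (Or.inl h2.1))
            (hcopD p h2.2.2 h1.2.1), fun x hx => mem_range.1 ((hOm p h1.1).1 hx), h1.2.2, ?_⟩
          have := hsize p h1.1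
          have := h2.2.2.pos
          omega
        · have h2 := mem_LP.1 h
          rw [hc2 p h, hom2 p h]
          refine ⟨h2.2.2, Nat.Coprime.mul_right (cop_Q0 h2.2.2 (Or.inr h2.1))
            (hcopD p h2.2.2 ?_), ?_, by norm_num, by omega⟩
          · intro hpD
            have := mem_LP.1 (hDL hpD)
            omega
          · intro x hx
            rw [mem_insert, mem_singleton] at hx
            omega } with hs
  have hz1z2 : 1 ≤ z1 * z2 := by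
    have : 1 ≤ y ^ E := Nat.one_le_pow _ _ (by omega)
    exact Nat.mul_pos hz1 (this.trans hyz)
  have hsel := selb s (z1 * z2) hz1z2
  -- the set
  have hcard : (S'.card : ℝ) ≤ (((range (s.U + 1)).filter (fun u => u % s.m = s.a % s.m ∧
      ∀ p ∈ s.S, u % p ∉ s.Om p)).card : ℝ) := by
    rw [Nat.cast_le]
    apply card_le_card
    intro N hN
    obtain ⟨h1, h2, h3, h4, h5, h6⟩ := hS' N hN
    rw [mem_filter, mem_range]
    refine ⟨Nat.lt_succ_of_le h1, h2, ?_⟩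
    intro p hp
    rcases mem_union.1 (show p ∈ S1 ∪ S2 from hp) with h | h
    · show N % p ∉ Om' p
      rw [hom1 p h]
      exact h3 p (hS1m p h).1 (hS1m p h).2.1
    · show N % p ∉ Om' p
      rw [hom2 p h, mem_insert, mem_singleton]
      have h7 := mem_LP.1 h
      rintro (h8 | h8)
      · have h9 : p ∣ N - e := by
          have : e % p = e := Nat.mod_eq_of_lt (by omega)
          apply (Nat.modEq_iff_dvd' (by omega)).1
          show e % p = N % p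
          rw [this, h8]
        rcases (Nat.dvd_prime h5).1 h9 with h10 | h10
        · exact h7.2.2.one_lt.ne' h10
        · omega
      · have h9 : p ∣ N + e := by
          rw [Nat.dvd_iff_mod_eq_zero, Nat.add_mod, h8, Nat.mod_eq_of_lt (show e < p by omega),
            Nat.sub_add_cancel (by omega), Nat.mod_self]
        rcases (Nat.dvd_prime h6).1 h9 with h10 | h10
        · exact h7.2.2.one_lt.ne' h10
        · omega
  refine hcard.trans (hsel.trans ?_)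
  -- the Selberg sum
  set w : ℕ → ℝ := fun p => ((Om' p).card : ℝ) / (p - (Om' p).card) with hw
  have hp0 : ∀ p ∈ S1, (0 : ℝ) < p := fun p hp => by exact_mod_cast (mem_LP.1 (hS1m p hp).1).2.2.pos
  have hw1 : ∀ p ∈ S1, 0 ≤ w p ∧ w p ≤ 10 / 9 * (W * (1 / (p : ℝ) ^ 2)) ∧
      1 + w p = (1 - ((Om p).card : ℝ) / p)⁻¹ ∧ 0 < 1 - ((Om p).card : ℝ) / p := by
    intro p hp
    have h1 := hsize p (hS1m p hp).1
    have h2 : (10 : ℝ) * (Om p).card ≤ p := by exact_mod_cast h1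
    have h3 := hp0 p hp
    have h4 : (0 : ℝ) ≤ (Om p).card := Nat.cast_nonneg _
    have h5 : ((Om p).card : ℝ) ≤ W / p := (Nat.cast_le.2 (hOm p (hS1m p hp).1).2).trans Nat.cast_div_le
    have h6 : (9 / 10 : ℝ) * p ≤ p - (Om p).card := by linarith
    have h7 : (0 : ℝ) < p - (Om p).card := by linarith
    simp only [hw]
    rw [hom1 p hp]
    refine ⟨by positivity, ?_, ?_, ?_⟩
    · calc ((Om p).card : ℝ) / (p - (Om p).card) ≤ (W / p) / (9 / 10 * p) := by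
            gcongr
        _ = 10 / 9 * (W * (1 / (p : ℝ) ^ 2)) := by field_simp
    · field_simp
      ring
    · rw [sub_pos, div_lt_one h3]; linarith
  have hw2 : ∀ p ∈ S2, w p = 2 / ((p : ℝ) - 2) := by
    intro p hp
    simp only [hw]
    rw [hc2 p hp]
    push_cast
    rfl
  have hwn : ∀ p ∈ S1 ∪ S2, 0 ≤ w p := by
    intro p hp
    rcases mem_union.1 hp with h | h
    · exact (hw1 p h).1
    · rw [hw2 p h]
      have h7 := (mem_LP.1 h).1
      have h8 : (3 : ℝ) ≤ p := by exact_mod_cast (by omega : 3 ≤ p)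
      apply div_nonneg (by norm_num) (by linarith)
  have hPP : PP S1 z1 w * PP S2 z2 w ≤ PP (S1 ∪ S2) (z1 * z2) w := comb hdisj hwn le_rfl
  have hl1 : (1 / 2) * ∏ p ∈ S1, (1 + w p) ≤ PP S1 z1 w := by
    apply low1 S1 W z1 w hW (fun p hp => ⟨(mem_LP.1 (hS1m p hp).1).2.2, (mem_LP.1 (hS1m p hp).1).2.1⟩)
      (fun p hp => (hw1 p hp).1) hz1
    refine le_trans ?_ hlog
    have hlW : 0 ≤ Real.log W := Real.log_nonneg (by exact_mod_cast (by omega : 1 ≤ W))
    apply mul_le_mul_of_nonneg_left _ hlW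
    have : ∑ p ∈ S1, w p ≤ 10 / 9 * (W * ∑ p ∈ LP z0 W, 1 / (p : ℝ) ^ 2) := by
      calc ∑ p ∈ S1, w p ≤ ∑ p ∈ S1, 10 / 9 * (W * (1 / (p : ℝ) ^ 2)) :=
            sum_le_sum fun p hp => (hw1 p hp).2.1
        _ ≤ ∑ p ∈ LP z0 W, 10 / 9 * (W * (1 / (p : ℝ) ^ 2)) :=
            sum_le_sum_of_subset_of_nonneg (fun p hp => (hS1m p hp).1) fun _ _ _ => by positivity
        _ = _ := by rw [← mul_sum, ← mul_sum]
    linarith
  have hl2 : (1 / 2) * ∏ p ∈ S2, (1 - 2 / (p : ℝ))⁻¹ ≤ PP S2 z2 w := by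
    refine (hlow W y z2 hW hWy hy0 hyz).trans (le_of_eq ?_)
    unfold PP
    apply sum_congr rfl
    intro A hA
    rw [mem_filter, mem_powerset] at hA
    apply prod_congr rfl
    intro p hp
    rw [hw2 p (hA.1 hp)]
  have hm := hmert W y hW hWy
  set A1 := ∏ p ∈ LP z0 W \ D, (1 - ((Om p).card : ℝ) / p) with hA1
  have hA1eq : A1 = ∏ p ∈ S1, (1 - ((Om p).card : ℝ) / p) := by
    rw [hA1, hS1]
    symm
    apply prod_subset (filter_subset _ _)
    intro p hp hp'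
    have : (Om p).card = 0 := by
      by_contra h
      exact hp' (mem_filter.2 ⟨hp, by omega⟩)
    rw [this]; simp
  have hA1pos : 0 < A1 := by rw [hA1eq]; exact prod_pos fun p hp => (hw1 p hp).2.2.2
  have hprod1 : ∏ p ∈ S1, (1 + w p) = A1⁻¹ := by
    rw [hA1eq, ← prod_inv_distrib]
    exact prod_congr rfl fun p hp => (hw1 p hp).2.2.1
  set A2 := ∏ p ∈ S2, (1 - 2 / (p : ℝ)) with hA2
  have hA2pos : 0 < A2 := by
    apply prod_pos
    intro p hp
    have h7 := (mem_LP.1 hp).1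
    have h8 : (3 : ℝ) ≤ p := by exact_mod_cast (by omega : 3 ≤ p)
    rw [sub_pos, div_lt_one (by linarith)]
    linarith
  rw [hprod1] at hl1
  rw [prod_inv_distrib] at hl2
  rw [← hA2] at hl2
  have hG : (1 / 4) * (A1⁻¹ * A2⁻¹) ≤ PP (S1 ∪ S2) (z1 * z2) w := by
    refine le_trans ?_ hPP
    calc (1 / 4 : ℝ) * (A1⁻¹ * A2⁻¹) = (1 / 2 * A1⁻¹) * (1 / 2 * A2⁻¹) := by ring
      _ ≤ _ := mul_le_mul hl1 hl2 (by positivity) (le_trans (by positivity) hl1)
  have hGpos : 0 < (1 / 4) * (A1⁻¹ * A2⁻¹) := by positivity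
  have hPR : (0 : ℝ) < ((Q0 z0 W * ∏ p ∈ D, p : ℕ) : ℝ) := by exact_mod_cast hPpos
  have hmain : (((s.U : ℝ) + 1) / s.m) / (∑ A ∈ s.S.powerset with (∏ p ∈ A, p) ≤ z1 * z2,
        ∏ p ∈ A, ((s.Om p).card : ℝ) / (p - (s.Om p).card)) ≤
      (((X : ℝ) + 1) / ((Q0 z0 W * ∏ p ∈ D, p : ℕ) : ℝ)) / ((1 / 4) * (A1⁻¹ * A2⁻¹)) := by
    apply div_le_div_of_nonneg_left _ hGpos hG
    positivity
  refine (add_le_add_left hmain _).trans ?_
  apply add_le_add_left
  have e1 : (((X : ℝ) + 1) / ((Q0 z0 W * ∏ p ∈ D, p : ℕ) : ℝ)) / ((1 / 4) * (A1⁻¹ * A2⁻¹)) =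
      4 * ((((X : ℝ) + 1) / (Q0 z0 W * ∏ p ∈ D, (p : ℝ))) * A1 * A2) := by
    push_cast
    field_simp
  rw [e1, mul_assoc 4 C]
  apply mul_le_mul_of_nonneg_left _ (by norm_num)
  have hnn : 0 ≤ (((X : ℝ) + 1) / (Q0 z0 W * ∏ p ∈ D, (p : ℝ))) * A1 := by positivity
  calc (((X : ℝ) + 1) / (Q0 z0 W * ∏ p ∈ D, (p : ℝ))) * A1 * A2
      ≤ (((X : ℝ) + 1) / (Q0 z0 W * ∏ p ∈ D, (p : ℝ))) * A1 * (C * (Real.log W / Real.log y) ^ 2) :=
        mul_le_mul_of_nonneg_left hm hnn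
    _ = _ := by ring

end Pool.Agent.K7.H40.GR
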