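import Mathlib
import Pool.Agent.K7.H40.GR.Tree
import Pool.Agent.W880.GM.Exc

/-!
Small estimates for the choice of the parameters.
-/

set_option autoImplicit false

namespace Pool.Agent.K7.H40.GR

open Finset Filter

/-- `W ∑ 1/p^2` -/
noncomputable def sg (z W : ℕ) : ℝ := W * ∑ p ∈ LP z W, 1 / (p : ℝ) ^ 2

lemma sg_nonneg (z W : ℕ) : 0 ≤ sg z W := mul_nonneg (Nat.cast_nonneg _) (sum_nonneg fun _ _ => by positivity)

lemma sg_le {z W : ℕ} (hz : 2 ≤ z) (hW : 10 * W ≤ z ^ 2) :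
    sg z W * Real.log z ≤ 3 / 10 * z := by
  have hzR : (2 : ℝ) ≤ z := by exact_mod_cast hz
  have hlog : 0 < Real.log z := Real.log_pos (by linarith)
  have h1 := Pool.Agent.W880.GM.tail_prime z hz W
  have hWR : (10 : ℝ) * W ≤ (z : ℝ) ^ 2 := by exact_mod_cast hW
  have h2 : sg z W ≤ W * (3 / (z * Real.log z)) :=
    mul_le_mul_of_nonneg_left h1 (Nat.cast_nonneg _)
  calc sg z W * Real.log z ≤ W * (3 / (z * Real.log z)) * Real.log z :=
        mul_le_mul_of_nonneg_right h2 hlog.le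
    _ = 3 * W / z := by field_simp
    _ ≤ 3 / 10 * z := by
        rw [div_le_iff₀ (by linarith)]
        nlinarith

lemma one_sub_exp {x : ℝ} (h0 : 0 ≤ x) (h1 : x ≤ 1 / 2) : Real.exp (-(2 * x)) ≤ 1 - x := by
  have h2 : (0 : ℝ) < 1 - x := by linarith
  have h3 := Real.add_one_le_exp (2 * x)
  have h4 : 1 ≤ (1 - x) * Real.exp (2 * x) := by
    have : 1 ≤ (1 - x) * (2 * x + 1) := by nlinarith
    exact this.trans (mul_le_mul_of_nonneg_left h3 h2.le)
  rw [Real.exp_neg]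
  rw [inv_le_iff_one_le_mul₀ (Real.exp_pos _)]
  exact h4

lemma prod_low {z W : ℕ} (hW : 10 * W ≤ z ^ 2) (D : Finset ℕ) (Om : ℕ → Finset ℕ)
    (hOm : ∀ p ∈ LP z W, (Om p).card ≤ W / p) :
    Real.exp (-(2 * sg z W)) ≤ ∏ p ∈ LP z W \ D, (1 - ((Om p).card : ℝ) / p) := by
  have h1 : ∀ p ∈ LP z W \ D, ((Om p).card : ℝ) / p ≤ W * (1 / (p : ℝ) ^ 2) ∧
      ((Om p).card : ℝ) / p ≤ 1 / 2 := by
    intro p hp
    have hp1 := (mem_sdiff.1 hp).1
    have hp2 := mem_LP.1 hp1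
    have hp0 : (0 : ℝ) < p := by exact_mod_cast hp2.2.2.pos
    have h2 : ((Om p).card : ℝ) ≤ W / p := by
      have : ((Om p).card : ℝ) ≤ ((W / p : ℕ) : ℝ) := by exact_mod_cast hOm p hp1
      exact this.trans Nat.cast_div_le
    have h3 : ((Om p).card : ℝ) / p ≤ W * (1 / (p : ℝ) ^ 2) := by
      rw [div_le_iff₀ hp0]
      refine h2.trans (le_of_eq ?_)
      field_simp
    refine ⟨h3, h3.trans ?_⟩
    have h4 : (10 : ℝ) * W ≤ (z : ℝ) ^ 2 := by exact_mod_cast hW
    have h5 : (z : ℝ) ≤ p := by exact_mod_cast hp2.1.le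
    have h6 : (z : ℝ) ^ 2 ≤ (p : ℝ) ^ 2 := pow_le_pow_left₀ (Nat.cast_nonneg _) h5 2
    rw [mul_one_div, div_le_iff₀ (by positivity)]
    linarith
  have h0 : ∀ p : ℕ, 0 ≤ ((Om p).card : ℝ) / p := fun p => by positivity
  calc Real.exp (-(2 * sg z W)) ≤ Real.exp (∑ p ∈ LP z W \ D, -(2 * (((Om p).card : ℝ) / p))) := by
        apply Real.exp_le_exp.2
        rw [sum_neg_distrib, ← mul_sum]
        have h2 : ∑ p ∈ LP z W \ D, ((Om p).card : ℝ) / p ≤ sg z W := by
          unfold sg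
          rw [mul_sum]
          calc ∑ p ∈ LP z W \ D, ((Om p).card : ℝ) / p ≤ ∑ p ∈ LP z W \ D, W * (1 / (p : ℝ) ^ 2) :=
                sum_le_sum fun p hp => (h1 p hp).1
            _ ≤ ∑ p ∈ LP z W, W * (1 / (p : ℝ) ^ 2) :=
                sum_le_sum_of_subset_of_nonneg sdiff_subset fun _ _ _ => by positivity
        linarith
    _ = ∏ p ∈ LP z W \ D, Real.exp (-(2 * (((Om p).card : ℝ) / p))) := Real.exp_sum _ _
    _ ≤ ∏ p ∈ LP z W \ D, (1 - ((Om p).card : ℝ) / p) := by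
        apply prod_le_prod (fun _ _ => (Real.exp_pos _).le)
        intro p hp
        exact one_sub_exp (h0 p) (h1 p hp).2

lemma Q0_le {z W : ℕ} (hW : 1 ≤ W) : Q0 z W ≤ W ^ ((Icc 1 z).filter (fun n : ℕ => Nat.Prime n)).card := by
  unfold Q0
  have h1 : (range (z + 1)).filter Nat.Prime = (Icc 1 z).filter (fun n : ℕ => Nat.Prime n) := by
    ext p
    rw [mem_filter, mem_filter, mem_range, mem_Icc]
    constructor
    · rintro ⟨h1, h2⟩
      exact ⟨⟨h2.one_le, by omega⟩, h2⟩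
    · rintro ⟨h1, h2⟩
      exact ⟨by omega, h2⟩
  rw [h1]
  calc ∏ p ∈ (Icc 1 z).filter (fun n : ℕ => Nat.Prime n), p ^ Nat.log p W
      ≤ ∏ _p ∈ (Icc 1 z).filter (fun n : ℕ => Nat.Prime n), W :=
        prod_le_prod' fun p _ => Nat.pow_log_le_self p (by omega)
    _ = _ := by rw [prod_const]

/-- all the conditions on the size of `L = log X` -/
lemma ev (E y₀ : ℕ) (hE : 1 ≤ E) (c0 : ℝ) (hc0 : 0 < c0) : ∀ᶠ L : ℝ in atTop,
    (1 ≤ L ∧ 6 ≤ c0 * L ∧ 4 * Real.exp (-(L / (256 * Real.log L))) ≤ 1 / (4 * L ^ 2)) ∧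
    (64 + 128 * Real.log L ≤ L ∧ L ^ 2 + y₀ + 3 ≤ Real.exp (L / (32 * E)) ∧ 1 ≤ L / (64 * E)) ∧
    (4 * L ^ 2 ≤ Real.exp (L / 16) ∧ 2208 + 100 * L ^ 2 ≤ Real.exp (L / 4)) := by
  have hEr : (0 : ℝ) < E := by exact_mod_cast hE
  have hexp : ∀ (a : ℝ) (k : ℕ), 0 < a → Tendsto (fun L : ℝ => Real.exp (a * L) / L ^ k) atTop atTop := by
    intro a k ha
    have h1 := Real.tendsto_exp_div_pow_atTop k
    have h2 : Tendsto (fun L : ℝ => a * L) atTop atTop := tendsto_id.const_mul_atTop ha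
    have h3 := (h1.comp h2).const_mul_atTop (pow_pos ha k)
    refine h3.congr' ?_
    filter_upwards [eventually_gt_atTop 0] with L hL
    simp only [Function.comp]
    rw [mul_pow]
    field_simp
  have key : ∀ (a M : ℝ) , 0 < a → ∀ᶠ L : ℝ in atTop, M * L ^ 2 ≤ Real.exp (a * L) := by
    intro a M ha
    filter_upwards [(hexp a 2 ha).eventually_ge_atTop M, eventually_gt_atTop 0] with L h1 h2
    rwa [le_div_iff₀ (by positivity)] at h1
  have hlogo : Tendsto (fun L : ℝ => L / Real.log L) atTop atTop := by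
    have h1 : Tendsto (fun L : ℝ => Real.log L / L) atTop (nhds 0) := by
      have := Real.isLittleO_log_id_atTop.tendsto_div_nhds_zero
      simpa using this
    have h2 : Tendsto (fun L : ℝ => (Real.log L / L)⁻¹) atTop atTop := by
      apply Tendsto.inv_tendsto_nhdsGT_zero
      rw [tendsto_nhdsWithin_iff]
      refine ⟨h1, ?_⟩
      filter_upwards [eventually_gt_atTop 1] with L hL
      have := Real.log_pos hL
      exact Set.mem_Ioi.2 (by positivity)
    refine h2.congr ?_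
    intro L
    rw [inv_div]
  have hlog2 : Tendsto (fun L : ℝ => L / Real.log L ^ 2) atTop atTop := by
    have h1 : Tendsto (fun L : ℝ => Real.log L ^ 2 / L) atTop (nhds 0) := by
      have := (Real.isLittleO_pow_log_id_atTop (n := 2)).tendsto_div_nhds_zero
      simpa using this
    have h2 : Tendsto (fun L : ℝ => (Real.log L ^ 2 / L)⁻¹) atTop atTop := by
      apply Tendsto.inv_tendsto_nhdsGT_zero
      rw [tendsto_nhdsWithin_iff]
      refine ⟨h1, ?_⟩
      filter_upwards [eventually_gt_atTop 1] with L hL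
      have := Real.log_pos hL
      exact Set.mem_Ioi.2 (by positivity)
    refine h2.congr ?_
    intro L
    rw [inv_div]
  have e1 : ∀ᶠ L : ℝ in atTop, 1 ≤ L := eventually_ge_atTop 1
  have e2 : ∀ᶠ L : ℝ in atTop, 6 ≤ c0 * L := (tendsto_id.const_mul_atTop hc0).eventually_ge_atTop 6
  have e3 : ∀ᶠ L : ℝ in atTop, 4 * Real.exp (-(L / (256 * Real.log L))) ≤ 1 / (4 * L ^ 2) := by
    filter_upwards [hlog2.eventually_ge_atTop 2000, eventually_ge_atTop (Real.exp 1)] with L h1 h2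
    have hL : 0 < L := (Real.exp_pos 1).trans_le h2
    have hl : 1 ≤ Real.log L := (Real.le_log_iff_exp_le hL).2 h2
    rw [le_div_iff₀ (by positivity)] at h1
    have h3 : 5 * Real.log L ≤ L / (256 * Real.log L) := by
      rw [le_div_iff₀ (by positivity)]
      nlinarith
    have h4 : Real.exp (-(L / (256 * Real.log L))) ≤ Real.exp (-(5 * Real.log L)) :=
      Real.exp_le_exp.2 (by linarith)
    have h5 : Real.exp (-(5 * Real.log L)) = 1 / L ^ 5 := by
      rw [Real.exp_neg, show (5 : ℝ) * Real.log L = ((5 : ℕ) : ℝ) * Real.log L by norm_num,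
        ← Real.log_pow, Real.exp_log (by positivity), one_div]
    rw [h5] at h4
    have h6 : (16 : ℝ) ≤ L ^ 3 := by
      have h7 : (2.7 : ℝ) ≤ L := le_trans (by have := Real.exp_one_gt_d9; linarith) h2
      calc (16 : ℝ) ≤ 2.7 ^ 3 := by norm_num
        _ ≤ L ^ 3 := pow_le_pow_left₀ (by norm_num) h7 3
    calc 4 * Real.exp (-(L / (256 * Real.log L))) ≤ 4 * (1 / L ^ 5) := by linarith
      _ ≤ 1 / (4 * L ^ 2) := by
        rw [mul_one_div, div_le_div_iff₀ (by positivity) (by positivity)]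
        have : L ^ 5 = L ^ 3 * L ^ 2 := by ring
        rw [this]
        nlinarith [mul_le_mul_of_nonneg_right h6 (by positivity : (0 : ℝ) ≤ L ^ 2)]
  have e4 : ∀ᶠ L : ℝ in atTop, 64 + 128 * Real.log L ≤ L := by
    filter_upwards [hlogo.eventually_ge_atTop 192, eventually_ge_atTop (Real.exp 1)] with L h1 h2
    have hL : 0 < L := (Real.exp_pos 1).trans_le h2
    have hl : 1 ≤ Real.log L := (Real.le_log_iff_exp_le hL).2 h2
    rw [le_div_iff₀ (by positivity)] at h1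
    nlinarith
  have e5 : ∀ᶠ L : ℝ in atTop, L ^ 2 + y₀ + 3 ≤ Real.exp (L / (32 * E)) := by
    filter_upwards [key (1 / (32 * E)) (y₀ + 4) (by positivity), e1] with L h1 h2
    have h3 : 1 / (32 * (E : ℝ)) * L = L / (32 * E) := by ring
    rw [h3] at h1
    have h4 : (1 : ℝ) ≤ L ^ 2 := by nlinarith
    have h5 : (0 : ℝ) ≤ y₀ := Nat.cast_nonneg _
    nlinarith
  have e6 : ∀ᶠ L : ℝ in atTop, 1 ≤ L / (64 * E) := by
    filter_upwards [eventually_ge_atTop (64 * E : ℝ)] with L h1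
    rwa [le_div_iff₀ (by positivity), one_mul]
  have e7 : ∀ᶠ L : ℝ in atTop, 4 * L ^ 2 ≤ Real.exp (L / 16) := by
    filter_upwards [key (1 / 16) 4 (by norm_num)] with L h1
    have h3 : (1 / 16 : ℝ) * L = L / 16 := by ring
    rwa [h3] at h1
  have e8 : ∀ᶠ L : ℝ in atTop, 2208 + 100 * L ^ 2 ≤ Real.exp (L / 4) := by
    filter_upwards [key (1 / 4) 2308 (by norm_num), e1] with L h1 h2
    have h3 : (1 / 4 : ℝ) * L = L / 4 := by ring
    rw [h3] at h1
    have h4 : (1 : ℝ) ≤ L ^ 2 := by nlinarith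
    linarith
  filter_upwards [e1, e2, e3, e4, e5, e6, e7, e8] with L h1 h2 h3 h4 h5 h6 h7 h8
  exact ⟨⟨h1, h2, h3⟩, ⟨h4, h5, h6⟩, h7, h8⟩

end Pool.Agent.K7.H40.GR
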