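import Mathlib
import Pool.Agent.K7.H40.GR.Tree

/-!
The root of the tree, and the numbers with many discovered primes.
-/

set_option autoImplicit false

namespace Pool.Agent.K7.H40.GR

open Finset

open Classical in
theorem root {z W : ℕ} (S : Finset ℕ) (v : ℝ)
    (h : ∀ r, (((S.filter fun N => InN z W N 1 0 r ∅ fun _ => ∅).card : ℕ) : ℝ) ≤ v) :
    (S.card : ℝ) ≤ Q0 z W * v := by
  have h1 : S.card = ∑ r ∈ range (Q0 z W), (S.filter fun N => N % Q0 z W = r).card := by
    apply card_eq_sum_card_fiberwise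
    intro N _
    rw [coe_range, Set.mem_Iio]
    exact Nat.mod_lt _ (Q0_pos z W)
  rw [h1, Nat.cast_sum]
  calc ∑ r ∈ range (Q0 z W), ((S.filter fun N => N % Q0 z W = r).card : ℝ)
      ≤ ∑ _r ∈ range (Q0 z W), v := by
        apply sum_le_sum
        intro r hr
        rw [mem_range] at hr
        refine le_trans ?_ (h r)
        rw [Nat.cast_le]
        apply card_le_card
        intro N hN
        rw [mem_filter] at hN ⊢
        refine ⟨hN.1, ?_, ex_one N, Dsc_one z W N, fun _ _ _ => by simp⟩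
        rw [prod_empty, mul_one]
        show N % _ = r % _
        rw [hN.2, Nat.mod_eq_of_lt hr]
    _ = Q0 z W * v := by rw [sum_const, card_range, nsmul_eq_mul]

/-- the values which are still to come -/
def Ah (W n e : ℕ) : Finset ℕ :=
  (Icc 1 W).filter fun v => (v % 2 = 0 ∧ n < v) ∨ (v % 2 = 1 ∧ n + 2 * e < v)

lemma Ah_sub {W n e e' : ℕ} (he : e ≤ e') (hW : vv (n + 1) e ≤ W) :
    vv (n + 1) e ∈ Ah W n e ∧ Ah W (n + 1) e' ⊆ (Ah W n e).erase (vv (n + 1) e) := by
  have hp := vv_pos (n := n + 1) (e := e) (by omega)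
  constructor
  · unfold Ah
    rw [mem_filter, mem_Icc]
    refine ⟨⟨hp, hW⟩, ?_⟩
    unfold vv
    split_ifs <;> omega
  · intro v hv
    unfold Ah at *
    rw [mem_filter, mem_Icc] at hv
    rw [mem_erase, mem_filter, mem_Icc]
    refine ⟨?_, hv.1, by omega⟩
    unfold vv
    split_ifs <;> omega

/-- the weight of a value -/
noncomputable def ww (z W v : ℕ) : ℝ := ∑ p ∈ (LP z W).filter (fun p => p ∣ v), (1 : ℝ) / p

lemma ww_nonneg (z W v : ℕ) : 0 ≤ ww z W v := sum_nonneg fun _ _ => by positivity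

/-- elementary symmetric sums -/
noncomputable def ee (z W k : ℕ) (A : Finset ℕ) : ℝ := ∑ B ∈ powersetCard k A, ∏ v ∈ B, ww z W v

lemma ee_nonneg (z W k : ℕ) (A : Finset ℕ) : 0 ≤ ee z W k A :=
  sum_nonneg fun _ _ => prod_nonneg fun _ _ => ww_nonneg z W _

lemma ee_mono (z W k : ℕ) {A A' : Finset ℕ} (h : A ⊆ A') : ee z W k A ≤ ee z W k A' :=
  sum_le_sum_of_subset_of_nonneg (powersetCard_mono h)
    fun _ _ _ => prod_nonneg fun _ _ => ww_nonneg z W _

lemma ee_erase (z W k : ℕ) {A : Finset ℕ} {v : ℕ} (hv : v ∈ A) :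
    ee z W (k + 1) A = ee z W (k + 1) (A.erase v) + ww z W v * ee z W k (A.erase v) := by
  classical
  unfold ee
  conv_lhs => rw [← insert_erase hv]
  rw [powersetCard_succ_insert (notMem_erase v A), sum_union, mul_sum]
  · congr 1
    rw [sum_image]
    · apply sum_congr rfl
      intro B hB
      rw [prod_insert]
      intro h
      rw [mem_powersetCard] at hB
      exact notMem_erase v A (hB.1 h)
    · intro B hB B' hB' h
      rw [mem_coe, mem_powersetCard] at hB hB'
      have e1 : v ∉ B := fun h => notMem_erase v A (hB.1 h)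
      have e2 : v ∉ B' := fun h => notMem_erase v A (hB'.1 h)
      rw [← erase_insert e1, ← erase_insert e2, h]
  · rw [disjoint_left]
    intro B hB hB'
    rw [mem_powersetCard] at hB
    rw [mem_image] at hB'
    obtain ⟨B', -, rfl⟩ := hB'
    exact notMem_erase v A (hB.1 (mem_insert_self _ _))

lemma ee_le (z W k : ℕ) (A : Finset ℕ) :
    ee z W k A ≤ (1 / 2) ^ k * Real.exp (2 * ∑ v ∈ A, ww z W v) := by
  classical
  have h1 : (2 : ℝ) ^ k * ee z W k A ≤ ∏ v ∈ A, (1 + 2 * ww z W v) := by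
    rw [prod_one_add]
    unfold ee
    rw [mul_sum]
    calc ∑ B ∈ powersetCard k A, (2 : ℝ) ^ k * ∏ v ∈ B, ww z W v
        = ∑ B ∈ powersetCard k A, ∏ v ∈ B, (2 * ww z W v) := by
          apply sum_congr rfl
          intro B hB
          rw [mem_powersetCard] at hB
          rw [prod_mul_distrib, prod_const, hB.2]
      _ ≤ ∑ B ∈ A.powerset, ∏ v ∈ B, (2 * ww z W v) := by
          apply sum_le_sum_of_subset_of_nonneg
          · intro B hB
            rw [mem_powersetCard] at hB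
            exact mem_powerset.2 hB.1
          · intro B _ _
            exact prod_nonneg fun v _ => mul_nonneg (by norm_num) (ww_nonneg z W v)
  have h2 : ∏ v ∈ A, (1 + 2 * ww z W v) ≤ Real.exp (2 * ∑ v ∈ A, ww z W v) := by
    rw [mul_sum, Real.exp_sum]
    apply prod_le_prod
    · intro v _
      have := ww_nonneg z W v
      positivity
    · intro v _
      have := Real.add_one_le_exp (2 * ww z W v)
      linarith
  have h3 : (1 / 2 : ℝ) ^ k * (2 : ℝ) ^ k = 1 := by
    rw [← mul_pow]; norm_num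
  calc ee z W k A = (1 / 2) ^ k * ((2 : ℝ) ^ k * ee z W k A) := by rw [← mul_assoc, h3, one_mul]
    _ ≤ (1 / 2) ^ k * Real.exp (2 * ∑ v ∈ A, ww z W v) := by
        gcongr
        exact h1.trans h2

/-- the total weight -/
lemma sum_ww (z W : ℕ) : ∑ v ∈ Icc 1 W, ww z W v ≤ W * ∑ p ∈ LP z W, (1 : ℝ) / (p : ℝ) ^ 2 := by
  unfold ww
  have h1 : ∑ v ∈ Icc 1 W, ∑ p ∈ (LP z W).filter (fun p => p ∣ v), (1 : ℝ) / p =
      ∑ p ∈ LP z W, ∑ v ∈ (Icc 1 W).filter (fun v => p ∣ v), (1 : ℝ) / p := by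
    apply sum_comm'
    intro v p
    simp only [mem_filter]
    tauto
  rw [h1, mul_sum]
  apply sum_le_sum
  intro p hp
  have hpp := (mem_LP.1 hp).2.2
  have hp0 : (0 : ℝ) < p := by exact_mod_cast hpp.pos
  rw [sum_const, nsmul_eq_mul]
  have h2 : ((Icc 1 W).filter (fun v => p ∣ v)).card ≤ W / p := by
    have := Nat.Ioc_filter_dvd_card_eq_div W p
    rw [show Icc 1 W = Ioc 0 W from rfl, this]
  have h3 : ((((Icc 1 W).filter (fun v => p ∣ v)).card : ℕ) : ℝ) ≤ W / p :=
    (Nat.cast_le.2 h2).trans Nat.cast_div_le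
  calc _ ≤ (W / p : ℝ) * (1 / p) := by gcongr
    _ = W * (1 / (p : ℝ) ^ 2) := by field_simp

lemma count_mod (X m r : ℕ) (hm : 0 < m) (S : Finset ℕ) (hS : ∀ N ∈ S, 1 ≤ N ∧ N ≤ X ∧ N ≡ r [MOD m]) :
    (S.card : ℝ) ≤ X / m + 1 := by
  have h1 : S.card ≤ (range (X / m + 1)).card := by
    apply card_le_card_of_injOn (fun N => N / m)
    · intro N hN
      rw [coe_range, Set.mem_Iio]
      exact Nat.lt_succ_of_le (Nat.div_le_div_right (hS N hN).2.1)
    · intro N hN N' hN' h
      simp only at h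
      have h1 : N % m = N' % m := (hS N hN).2.2.trans (hS N' hN').2.2.symm
      rw [← Nat.div_add_mod N m, ← Nat.div_add_mod N' m, h, h1]
  rw [card_range] at h1
  calc (S.card : ℝ) ≤ ((X / m + 1 : ℕ) : ℝ) := by exact_mod_cast h1
    _ ≤ X / m + 1 := by push_cast; gcongr; exact Nat.cast_div_le

open Classical in
/-- numbers with many discovered primes -/
theorem many {z W T H X j : ℕ} (hW : W < z ^ 2) (hT : T + 2 * H ≤ W) (hT1 : 1 ≤ T)
    (hX : Q0 z W * W ^ j ≤ X) (S : Finset ℕ)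
    (hS : ∀ N ∈ S, 1 ≤ N ∧ N ≤ X ∧ ex N T ≤ H ∧ j ≤ (Dsc z W N T).card) :
    (S.card : ℝ) ≤ 2 * X * ((1 / 2) ^ j * Real.exp (2 * (W * ∑ p ∈ LP z W, (1 : ℝ) / (p : ℝ) ^ 2))) := by
  have hQ := Q0_pos z W
  have hQ0 : (0 : ℝ) < Q0 z W := by exact_mod_cast hQ
  set V : ℕ → ℕ → Finset ℕ → (ℕ → Finset ℕ) → ℝ := fun n e D _ =>
    2 * X / (Q0 z W * ∏ p ∈ D, (p : ℝ)) * ee z W (j - D.card) (Ah W n e) with hVdef
  have hdirect : ∀ (n e r : ℕ) (D : Finset ℕ) (Om : ℕ → Finset ℕ), D ⊆ LP z W → D.card = j →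
      (((S.filter fun N => InN z W N n e r D Om).card : ℕ) : ℝ) ≤ V n e D Om := by
    intro n e r D Om hD hj
    have hDp : 0 < ∏ p ∈ D, p := prod_pos fun p hp => (mem_LP.1 (hD hp)).2.2.pos
    have h1 := count_mod X (Q0 z W * ∏ p ∈ D, p) r (Nat.mul_pos hQ hDp)
      (S.filter fun N => InN z W N n e r D Om) (by
        intro N hN
        rw [mem_filter] at hN
        exact ⟨(hS N hN.1).1, (hS N hN.1).2.1, hN.2.1⟩)
    refine h1.trans ?_
    rw [hVdef]
    simp only
    rw [hj, Nat.sub_self]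
    have h2 : ee z W 0 (Ah W n e) = 1 := by unfold ee; simp
    rw [h2, mul_one]
    have h3 : ∏ p ∈ D, p ≤ W ^ j := by
      rw [← hj]
      exact prod_le_pow_card D _ W fun p hp => (mem_LP.1 (hD hp)).2.1
    have h4 : Q0 z W * ∏ p ∈ D, p ≤ X := (Nat.mul_le_mul le_rfl h3).trans hX
    have h5 : ((Q0 z W * ∏ p ∈ D, p : ℕ) : ℝ) ≤ X := by exact_mod_cast h4
    have h6 : (0 : ℝ) < ((Q0 z W * ∏ p ∈ D, p : ℕ) : ℝ) := by exact_mod_cast Nat.mul_pos hQ hDp
    have h7 : (1 : ℝ) ≤ X / ((Q0 z W * ∏ p ∈ D, p : ℕ) : ℝ) := by rw [le_div_iff₀ h6]; linarith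
    have h8 : 2 * (X : ℝ) / (Q0 z W * ∏ p ∈ D, (p : ℝ)) =
        X / ((Q0 z W * ∏ p ∈ D, p : ℕ) : ℝ) + X / ((Q0 z W * ∏ p ∈ D, p : ℕ) : ℝ) := by
      push_cast; ring
    rw [h8]
    linarith
  have hVn : ∀ n e (D : Finset ℕ) (Om : ℕ → Finset ℕ), 0 ≤ V n e D Om := by
    intro n e D Om
    rw [hVdef]
    have := ee_nonneg z W (j - D.card) (Ah W n e)
    positivity
  have h := tree hW hT S (fun N hN => (hS N hN).2.2.1) V (fun _ _ D _ => D.card ≤ j ∧ D ⊆ LP z W)
    (fun n e D Om _ => hVn n e D Om) (by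
      intro e r D Om hI
      rcases Nat.lt_or_ge D.card j with h1 | h1
      · have h2 : (S.filter fun N => InN z W N T e r D Om) = ∅ := by
          rw [filter_eq_empty_iff]
          intro N hN hNI
          have h3 := (hS N hN).2.2.2
          rw [hNI.2.2.1] at h3
          omega
        rw [h2, card_empty, Nat.cast_zero]
        exact hVn _ _ _ Om
      · exact hdirect T e r D Om hI.2 (by omega)) (by
      intro n e D Om hn hnT heH hDL hI
      rcases Nat.lt_or_ge D.card j with h1 | h1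
      · right
        have hvW : vv (n + 1) e ≤ W := by unfold vv; split_ifs <;> omega
        refine ⟨fun e' he' => ⟨hI, ?_⟩, ?_⟩
        · rw [hVdef]
          simp only
          have h2 := ee_mono z W (j - D.card) ((Ah_sub he' hvW).2.trans (erase_subset _ _))
          gcongr
        · intro p hp hpD hpv ρ _ _ e1 e2 he1 he2
          refine ⟨⟨by rw [card_insert_of_notMem hpD]; omega, insert_subset hp hDL⟩, hI, ?_⟩
          rw [hVdef]
          simp only
          rw [card_insert_of_notMem hpD, prod_insert hpD]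
          obtain ⟨k, hk⟩ : ∃ k, j - D.card = k + 1 := ⟨j - D.card - 1, by omega⟩
          rw [hk, show j - (D.card + 1) = k by omega, ee_erase z W k (Ah_sub (le_refl e) hvW).1]
          have h2 := ee_mono z W (k + 1) (Ah_sub he2 hvW).2
          have h3 := ee_mono z W k (Ah_sub he1 hvW).2
          have hp0 : (0 : ℝ) < p := by exact_mod_cast (mem_LP.1 hp).2.2.pos
          have h4 : (1 : ℝ) / p ≤ ww z W (vv (n + 1) e) := by
            unfold ww
            exact single_le_sum (f := fun p : ℕ => (1 : ℝ) / p) (fun _ _ => by positivity)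
              (mem_filter.2 ⟨hp, hpv⟩)
          have hDp : (0 : ℝ) < ∏ q ∈ D, (q : ℝ) :=
            prod_pos fun q hq => by exact_mod_cast (mem_LP.1 (hDL hq)).2.2.pos
          have h5 : 2 * (X : ℝ) / (Q0 z W * (p * ∏ q ∈ D, (q : ℝ))) =
              2 * X / (Q0 z W * ∏ q ∈ D, (q : ℝ)) * (1 / p) := by field_simp
          rw [h5, mul_assoc, ← mul_add]
          apply mul_le_mul_of_nonneg_left _ (by positivity)
          have h6 := ee_nonneg z W k ((Ah W n e).erase (vv (n + 1) e))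
          have h7 : 1 / (p : ℝ) * ee z W k (Ah W (n + 1) e1) ≤
              ww z W (vv (n + 1) e) * ee z W k ((Ah W n e).erase (vv (n + 1) e)) :=
            mul_le_mul h4 h3 (ee_nonneg _ _ _ _) (ww_nonneg _ _ _)
          linarith
      · left
        intro r
        exact hdirect n e r D Om hDL (by omega))
  have h1 := root S _ (fun r => h (T - 1) 1 0 r ∅ (fun _ => ∅) (by omega) le_rfl
    ⟨by simp, by simp⟩)
  refine h1.trans ?_
  rw [hVdef]
  simp only [prod_empty, mul_one, card_empty, Nat.sub_zero]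
  have h2 := ee_le z W j (Ah W 1 0)
  have h3 : ∑ v ∈ Ah W 1 0, ww z W v ≤ W * ∑ p ∈ LP z W, (1 : ℝ) / (p : ℝ) ^ 2 :=
    (sum_le_sum_of_subset_of_nonneg (filter_subset _ _) fun v _ _ => ww_nonneg z W v).trans (sum_ww z W)
  calc (Q0 z W : ℝ) * (2 * X / Q0 z W * ee z W j (Ah W 1 0)) = 2 * X * ee z W j (Ah W 1 0) := by
        field_simp
    _ ≤ 2 * X * ((1 / 2) ^ j * Real.exp (2 * ∑ v ∈ Ah W 1 0, ww z W v)) := by gcongr
    _ ≤ _ := by gcongr

end Pool.Agent.K7.H40.GR
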