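import Mathlib
import Pool.Agent.K7.H40.GR.Many

/-!
The sum over the tree: the local densities add up to one.
-/

set_option autoImplicit false

namespace Pool.Agent.K7.H40.GR

open Finset

/-- the number of multiples of `p` which have been met -/
lemma used_le (W n e p : ℕ) : ((Icc 1 W \ Ah W n e).filter fun v => p ∣ v).card ≤ W / p := by
  have := Nat.Ioc_filter_dvd_card_eq_div W p
  rw [← this]
  apply card_le_card
  intro v hv
  rw [mem_filter, mem_sdiff] at hv
  rw [mem_filter]
  exact ⟨hv.1.1, hv.2⟩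

open Classical in
theorem walk {z W T H X j : ℕ} {K : ℝ} (hK : 0 ≤ K) (hW : W < z ^ 2) (hT : T + 2 * H ≤ W)
    (hT1 : 1 ≤ T) (S : Finset ℕ)
    (hS : ∀ N ∈ S, ex N T ≤ H ∧ (Dsc z W N T).card < j)
    (hleaf : ∀ (e r : ℕ) (D : Finset ℕ) (Om : ℕ → Finset ℕ), D ⊆ LP z W → D.card < j →
      (∀ p ∈ LP z W, Om p ⊆ range p ∧ (Om p).card ≤ W / p) →
      ∀ S' ⊆ S, (∀ N ∈ S', N ≡ r [MOD Q0 z W * ∏ p ∈ D, p] ∧ ex N T = e ∧
        ∀ p ∈ LP z W, p ∉ D → N % p ∉ Om p) →
      (S'.card : ℝ) ≤ K * (X / (Q0 z W * ∏ p ∈ D, (p : ℝ))) *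
        ∏ p ∈ LP z W \ D, (1 - ((Om p).card : ℝ) / p)) :
    (S.card : ℝ) ≤ K * X := by
  have hQ := Q0_pos z W
  have hQ0 : (0 : ℝ) < Q0 z W := by exact_mod_cast hQ
  set V : ℕ → ℕ → Finset ℕ → (ℕ → Finset ℕ) → ℝ := fun _ _ D Om =>
    K * (X / (Q0 z W * ∏ p ∈ D, (p : ℝ))) * ∏ p ∈ LP z W \ D, (1 - ((Om p).card : ℝ) / p) with hVdef
  set Inv : ℕ → ℕ → Finset ℕ → (ℕ → Finset ℕ) → Prop := fun n e D Om =>
    D ⊆ LP z W ∧ ∀ p ∈ LP z W, Om p ⊆ range p ∧
      (Om p).card ≤ ((Icc 1 W \ Ah W n e).filter fun v => p ∣ v).card with hInv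
  have hV : ∀ n e D Om, Inv n e D Om → 0 ≤ V n e D Om := by
    intro n e D Om hI
    rw [hVdef]
    simp only
    apply mul_nonneg (by positivity)
    apply prod_nonneg
    intro p hp
    rw [mem_sdiff] at hp
    have h1 := card_le_card (hI.2 p hp.1).1
    rw [card_range] at h1
    have hp0 : (0 : ℝ) < p := by exact_mod_cast (mem_LP.1 hp.1).2.2.pos
    rw [sub_nonneg, div_le_one hp0]
    exact_mod_cast h1
  have h := tree hW hT S (fun N hN => (hS N hN).1) V Inv hV (by
      intro e r D Om hI
      rcases Nat.lt_or_ge D.card j with h1 | h1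
      · apply hleaf e r D Om hI.1 h1
          (fun p hp => ⟨(hI.2 p hp).1, (hI.2 p hp).2.trans (used_le W T e p)⟩)
          _ (filter_subset _ _)
        intro N hN
        rw [mem_filter] at hN
        exact ⟨hN.2.1, hN.2.2.1, hN.2.2.2.2⟩
      · have h2 : (S.filter fun N => InN z W N T e r D Om) = ∅ := by
          rw [filter_eq_empty_iff]
          intro N hN hNI
          have h3 := (hS N hN).2
          rw [hNI.2.2.1] at h3
          omega
        rw [h2, card_empty, Nat.cast_zero]
        exact hV T e D Om hI) (by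
      intro n e D Om hn hnT heH hDL hI
      right
      have hvW : vv (n + 1) e ≤ W := by unfold vv; split_ifs <;> omega
      have hmono : ∀ e', e ≤ e' → Icc 1 W \ Ah W n e ⊆ Icc 1 W \ Ah W (n + 1) e' := fun e' he' =>
        sdiff_subset_sdiff (subset_refl _) ((Ah_sub he' hvW).2.trans (erase_subset _ _))
      have hIn : ∀ e', e ≤ e' → Inv (n + 1) e' D Om := fun e' he' =>
        ⟨hI.1, fun p hp => ⟨(hI.2 p hp).1, (hI.2 p hp).2.trans
          (card_le_card (filter_subset_filter _ (hmono e' he')))⟩⟩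
      refine ⟨fun e' he' => ⟨hIn e' he', le_of_eq rfl⟩, ?_⟩
      intro p hp hpD hpv ρ hρ hρO e1 e2 he1 he2
      have hpp := (mem_LP.1 hp).2.2
      have hp0 : (0 : ℝ) < p := by exact_mod_cast hpp.pos
      refine ⟨⟨insert_subset hp hDL, (hIn e1 he1).2⟩, ⟨hDL, ?_⟩, ?_⟩
      · intro q hq
        by_cases hqp : q = p
        · subst hqp
          rw [Function.update_self]
          refine ⟨insert_subset (mem_range.2 hρ) (hI.2 q hq).1, ?_⟩
          rw [card_insert_of_notMem hρO]
          have h1 := (hI.2 q hq).2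
          have h2 : ((Icc 1 W \ Ah W n e).filter fun v => q ∣ v).card <
              ((Icc 1 W \ Ah W (n + 1) e2).filter fun v => q ∣ v).card := by
            apply card_lt_card
            rw [ssubset_iff_of_subset (filter_subset_filter _ (hmono e2 he2))]
            refine ⟨vv (n + 1) e, ?_, ?_⟩
            · rw [mem_filter, mem_sdiff]
              refine ⟨⟨mem_Icc.2 ⟨vv_pos (by omega), hvW⟩, fun h => ?_⟩, hpv⟩
              exact notMem_erase _ _ ((Ah_sub he2 hvW).2 h)
            · rw [mem_filter, mem_sdiff]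
              intro h
              exact h.1.2 (Ah_sub (le_refl e) hvW).1
          omega
        · rw [Function.update_of_ne hqp]
          exact (hIn e2 he2).2 q hq
      · rw [hVdef]
        simp only
        rw [prod_insert hpD]
        have hpm : p ∈ LP z W \ D := mem_sdiff.2 ⟨hp, hpD⟩
        have e3 : LP z W \ insert p D = (LP z W \ D).erase p := by
          ext q; simp only [mem_sdiff, mem_insert, mem_erase]; tauto
        rw [e3, ← mul_prod_erase (LP z W \ D) (fun q => (1 - ((Om q).card : ℝ) / q)) hpm,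
          ← mul_prod_erase (LP z W \ D)
            (fun q => (1 - ((Function.update Om p (insert ρ (Om p)) q).card : ℝ) / q)) hpm,
          Function.update_self, card_insert_of_notMem hρO]
        have e4 : ∏ q ∈ (LP z W \ D).erase p,
            (1 - ((Function.update Om p (insert ρ (Om p)) q).card : ℝ) / q) =
            ∏ q ∈ (LP z W \ D).erase p, (1 - ((Om q).card : ℝ) / q) := by
          apply prod_congr rfl
          intro q hq
          rw [Function.update_of_ne (ne_of_mem_erase hq)]
        rw [e4]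
        set Y := ∏ q ∈ (LP z W \ D).erase p, (1 - ((Om q).card : ℝ) / q)
        have hDp : (0 : ℝ) < ∏ q ∈ D, (q : ℝ) :=
          prod_pos fun q hq => by exact_mod_cast (mem_LP.1 (hDL hq)).2.2.pos
        apply le_of_eq
        push_cast
        field_simp
        ring)
  have h1 := root S _ (fun r => h (T - 1) 1 0 r ∅ (fun _ => ∅) (by omega) le_rfl
    ⟨by simp, fun p _ => by simp⟩)
  refine h1.trans (le_of_eq ?_)
  rw [hVdef]
  simp only [prod_empty, mul_one, card_empty, Nat.cast_zero, zero_div, sub_zero, prod_const_one]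
  field_simp

end Pool.Agent.K7.H40.GR
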