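import Mathlib
import Pool.Agent.K7.H40.GR.Walk
import Pool.Agent.K7.H40.GR.Leaf
import Pool.Agent.K7.H40.GR.Par
import Pool.Agent.R105.GD.Pairs

/-!
The sharp law for small defects.
-/

set_option autoImplicit false

namespace Pool.Agent.K7.H40.GR

open Finset Filter

lemma W_le_pow {H : ℕ} (hH : 2 ≤ H) : 6 * H + 1 ≤ H ^ 4 := by
  have h1 : 8 ≤ H ^ 3 := by
    calc 8 = 2 ^ 3 := by norm_num
      _ ≤ H ^ 3 := Nat.pow_le_pow_left hH 3
  have h2 : H ^ 4 = H ^ 3 * H := by ring
  rw [h2]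
  nlinarith

/-- the bound for `(1/2)^j exp(2 σ)` -/
lemma many_bd {L ℓ s : ℝ} (hL : 1 ≤ L) (hℓ : 1 ≤ ℓ) (hℓL : ℓ ≤ Real.log L)
    (hs : s * ℓ ≤ 3 / 10 * (L / 128)) :
    (1 / 2 : ℝ) ^ ⌊L / (64 * ℓ)⌋₊ * Real.exp (2 * s) ≤ 2 * Real.exp (-(L / (256 * Real.log L))) := by
  have h2 : (0.69 : ℝ) ≤ Real.log 2 := by have := Real.log_two_gt_d9; linarith
  have h2' : Real.log 2 ≤ 1 := by have := Real.log_two_lt_d9; linarith
  have hℓ0 : 0 < ℓ := by linarith
  have e1 : (1 / 2 : ℝ) = Real.exp (-Real.log 2) := by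
    rw [Real.exp_neg, Real.exp_log (by norm_num)]; norm_num
  rw [e1, ← Real.exp_nat_mul, ← Real.exp_add]
  have e2 : (2 : ℝ) = Real.exp (Real.log 2) := by rw [Real.exp_log (by norm_num)]
  have h3 : 2 * Real.exp (-(L / (256 * Real.log L))) = Real.exp (Real.log 2 + -(L / (256 * Real.log L))) := by
    rw [Real.exp_add, ← e2]
  rw [h3]
  apply Real.exp_le_exp.2
  have h4 : L / (64 * ℓ) < ⌊L / (64 * ℓ)⌋₊ + 1 := Nat.lt_floor_add_one _
  have h5 : s ≤ 3 / 10 * (L / 128) / ℓ := by rwa [le_div_iff₀ hℓ0]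
  have h6 : L / (256 * Real.log L) ≤ L / (256 * ℓ) := by
    apply div_le_div_of_nonneg_left (by linarith) (by positivity)
    linarith
  set q := L / ℓ with hq
  have hq0 : 0 ≤ q := by positivity
  have e4 : L / (64 * ℓ) = q / 64 := by rw [hq]; field_simp
  have e5 : 3 / 10 * (L / 128) / ℓ = 3 / 10 * (q / 128) := by rw [hq]; field_simp
  have e6 : L / (256 * ℓ) = q / 256 := by rw [hq]; field_simp
  rw [e4] at h4
  rw [e5] at h5
  rw [e6] at h6
  rw [e4]
  set f : ℝ := ((⌊q / 64⌋₊ : ℕ) : ℝ) with hf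
  have h7 : q / 64 - 1 ≤ f := by linarith
  have h8 : Real.log 2 * (q / 64 - 1) ≤ Real.log 2 * f := mul_le_mul_of_nonneg_left h7 (by linarith)
  nlinarith

open Classical in
theorem bigX : ∃ c : ℝ, 0 < c ∧ ∃ K : ℝ, 0 < K ∧ ∀ᶠ X : ℕ in atTop, ∀ H : ℕ, 2 ≤ H →
    (H : ℝ) ≤ c * Real.log X ^ 2 →
    (((Icc 3 X).filter (fun N : ℕ => Pool.Agent.R105.GD.Gol.gg N + 2 ≤ N ∧
      N ≤ Pool.Agent.R105.GD.Gol.gg N + H)).card : ℝ) ≤ K * X * (Real.log H / Real.log X) ^ 2 := by
  obtain ⟨C, hC, E, hE, y₀, hleaf⟩ := leaf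
  obtain ⟨C₁, hC₁, hpi⟩ := Pool.Agent.R105.GD.primes_le
  set c0 : ℝ := 1 / (128 * C₁) with hc0
  have hc0pos : 0 < c0 := by positivity
  have hc0le : c0 ≤ 1 / 128 := by
    rw [hc0]
    apply div_le_div_of_nonneg_left (by norm_num) (by norm_num)
    linarith
  have hC1c0 : C₁ * c0 = 1 / 128 := by rw [hc0]; field_simp
  have hEr : (1 : ℝ) ≤ E := by exact_mod_cast hE
  refine ⟨c0 ^ 2 / 280, by positivity, 2 + (8 * C + 1) * (256 * E) ^ 2, by positivity, ?_⟩
  have hlogX : Tendsto (fun X : ℕ => Real.log X) atTop atTop :=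
    Real.tendsto_log_atTop.comp tendsto_natCast_atTop_atTop
  have hz0t : Tendsto (fun X : ℕ => ⌊c0 * Real.log X⌋₊) atTop atTop :=
    tendsto_nat_floor_atTop.comp (hlogX.const_mul_atTop hc0pos)
  filter_upwards [hlogX.eventually (ev E y₀ hE c0 hc0pos), hz0t.eventually hpi,
    eventually_ge_atTop 2] with X hev hpiz hX2 H hH2 hHc
  have hXpos : (0 : ℝ) < X := by exact_mod_cast (by omega : 0 < X)
  set L : ℝ := Real.log X with hLdef
  have hXL : Real.exp L = X := Real.exp_log hXpos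
  obtain ⟨⟨hL1, hL2, hL3⟩, ⟨hL4, hL5, hL6⟩, hL7, hL8⟩ := hev
  have hLpos : 0 < L := by linarith
  set z0 : ℕ := ⌊c0 * L⌋₊ with hz0
  have hz0le : (z0 : ℝ) ≤ c0 * L := Nat.floor_le (by positivity)
  have hz0ge' : c0 * L < z0 + 1 := Nat.lt_floor_add_one _
  have hz0ge : c0 * L / 2 ≤ z0 := by linarith
  have hz05 : (5 : ℝ) < z0 + 0 := by linarith
  have hz05' : (5 : ℝ) < z0 := by linarith
  have hz0nat : 2 ≤ z0 := by
    have : (2 : ℝ) ≤ z0 := by linarith
    exact_mod_cast this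
  set ℓ : ℝ := Real.log z0 with hℓdef
  have hℓ1 : 1 ≤ ℓ := by
    rw [hℓdef, Real.le_log_iff_exp_le (by linarith)]
    have := Real.exp_one_lt_d9
    linarith
  have hc0L : c0 * L ≤ 1 / 128 * L := mul_le_mul_of_nonneg_right hc0le hLpos.le
  have hz0L : (z0 : ℝ) ≤ L := by linarith
  have hℓL : ℓ ≤ Real.log L := Real.log_le_log (by linarith) hz0L
  have hHr : (2 : ℝ) ≤ H := by exact_mod_cast hH2
  set W : ℕ := 6 * H + 1 with hW
  have hWr : (W : ℝ) = 6 * H + 1 := by rw [hW]; push_cast; ring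
  have h10W : 10 * W ≤ z0 ^ 2 := by
    have h1 : (10 : ℝ) * W ≤ (z0 : ℝ) ^ 2 := by
      calc (10 : ℝ) * W ≤ 65 * H := by rw [hWr]; linarith
        _ ≤ 65 * (c0 ^ 2 / 280 * L ^ 2) := by linarith
        _ = 65 / 280 * (c0 * L) ^ 2 := by ring
        _ ≤ 1 / 4 * (c0 * L) ^ 2 := mul_le_mul_of_nonneg_right (by norm_num) (sq_nonneg _)
        _ = (c0 * L / 2) ^ 2 := by ring
        _ ≤ (z0 : ℝ) ^ 2 := pow_le_pow_left₀ (by positivity) hz0ge 2
    exact_mod_cast h1
  have hWz : W < z0 ^ 2 := by omega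
  have hW13 : (13 : ℝ) ≤ W := by rw [hWr]; linarith
  have hWpos : (0 : ℝ) < W := by linarith
  have hlogW1 : 1 ≤ Real.log W := by
    rw [Real.le_log_iff_exp_le hWpos]
    have := Real.exp_one_lt_d9
    linarith
  have hlogW2 : Real.log W ≤ 2 * ℓ := by
    have h1 : Real.log W ≤ Real.log ((z0 : ℝ) ^ 2) := Real.log_le_log hWpos (by exact_mod_cast hWz.le)
    rw [Real.log_pow] at h1
    exact_mod_cast h1
  have hlogW4 : Real.log W ≤ 4 * Real.log H := by
    have h1 : Real.log W ≤ Real.log ((H : ℝ) ^ 4) :=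
      Real.log_le_log hWpos (by exact_mod_cast W_le_pow hH2)
    rw [Real.log_pow] at h1
    exact_mod_cast h1
  have hexpW : Real.exp (Real.log W) = W := Real.exp_log hWpos
  -- the sum
  have hsg1 : sg z0 W * ℓ ≤ 3 / 10 * z0 := sg_le hz0nat h10W
  have hsg2 : sg z0 W * ℓ ≤ 3 / 10 * (L / 128) := by
    linarith
  have hsg0 := sg_nonneg z0 W
  have hsg3 : sg z0 W ≤ 3 / 10 * (L / 128) := le_trans (le_mul_of_one_le_right hsg0 hℓ1) hsg2
  -- j
  set j : ℕ := ⌊L / (64 * ℓ)⌋₊ with hj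
  have hjle : (j : ℝ) ≤ L / (64 * ℓ) := Nat.floor_le (by positivity)
  have hWj : (W : ℝ) ^ j ≤ Real.exp (L / 32) := by
    rw [← hexpW, ← Real.exp_nat_mul]
    apply Real.exp_le_exp.2
    calc (j : ℝ) * Real.log W ≤ L / (64 * ℓ) * (2 * ℓ) :=
          mul_le_mul hjle hlogW2 (by linarith) (by positivity)
      _ = L / 32 := by field_simp; norm_num
  have hQ0 : (Q0 z0 W : ℝ) ≤ Real.exp (L / 64) := by
    have h1 : (Q0 z0 W : ℝ) ≤ (W : ℝ) ^ ((Icc 1 z0).filter (fun n : ℕ => Nat.Prime n)).card := by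
      exact_mod_cast Q0_le (by omega)
    refine h1.trans ?_
    rw [← hexpW, ← Real.exp_nat_mul]
    apply Real.exp_le_exp.2
    calc (((Icc 1 z0).filter (fun n : ℕ => Nat.Prime n)).card : ℝ) * Real.log W
        ≤ (C₁ * (z0 / ℓ)) * (2 * ℓ) :=
          mul_le_mul hpiz hlogW2 (by linarith) (by positivity)
      _ = 2 * C₁ * z0 := by field_simp
      _ ≤ 2 * C₁ * (c0 * L) := mul_le_mul_of_nonneg_left hz0le (by positivity)
      _ = 2 * (C₁ * c0) * L := by ring
      _ = L / 64 := by rw [hC1c0]; ring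
  have hQ0pos : (0 : ℝ) < Q0 z0 W := by exact_mod_cast Q0_pos z0 W
  have hQW : Q0 z0 W * W ^ j ≤ X := by
    have h1 : (Q0 z0 W : ℝ) * (W : ℝ) ^ j ≤ X := by
      calc (Q0 z0 W : ℝ) * (W : ℝ) ^ j ≤ Real.exp (L / 64) * Real.exp (L / 32) :=
            mul_le_mul hQ0 hWj (by positivity) (Real.exp_pos _).le
        _ = Real.exp (L / 64 + L / 32) := (Real.exp_add _ _).symm
        _ ≤ Real.exp L := Real.exp_le_exp.2 (by linarith)
        _ = X := hXL
    exact_mod_cast h1
  -- the three parts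
  set A := (Icc 3 X).filter (fun N : ℕ => Pool.Agent.R105.GD.Gol.gg N + 2 ≤ N ∧
      N ≤ Pool.Agent.R105.GD.Gol.gg N + H) with hA
  set T : ℕ := 4 * H + 1 with hT
  set A1 := A.filter (fun N : ℕ => (N : ℝ) ≤ Real.exp (L / 2)) with hA1
  set A2 := A.filter (fun N : ℕ => ¬ (N : ℝ) ≤ Real.exp (L / 2)) with hA2
  set S1 := A2.filter (fun N : ℕ => j ≤ (Dsc z0 W N T).card) with hS1
  set S2 := A2.filter (fun N : ℕ => ¬ j ≤ (Dsc z0 W N T).card) with hS2
  have hsplit : A.card = A1.card + (S1.card + S2.card) := by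
    rw [hS1, hS2, card_filter_add_card_filter_not, hA1, hA2, card_filter_add_card_filter_not]
  have hHL : (H : ℝ) ≤ L ^ 2 / 280 := by
    have h1 : c0 ^ 2 ≤ 1 := pow_le_one₀ hc0pos.le (by linarith)
    have h2 : c0 ^ 2 / 280 * L ^ 2 ≤ 1 / 280 * L ^ 2 :=
      mul_le_mul_of_nonneg_right (div_le_div_of_nonneg_right h1 (by norm_num)) (sq_nonneg _)
    linarith
  have hfin : ∀ N ∈ A2, N ≤ X ∧ 3 ≤ N ∧ Real.exp (L / 2) < N ∧ 1 ≤ ex N T ∧ ex N T + 1 ≤ H ∧
      (N - ex N T).Prime ∧ (N + ex N T).Prime := by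
    intro N hN
    rw [hA2, mem_filter, hA, mem_filter, mem_Icc, not_le] at hN
    obtain ⟨⟨⟨hN3, hNX⟩, hg2, hgH⟩, hNL⟩ := hN
    have h1 : Real.exp (L / 4) ≤ Real.exp (L / 2) := Real.exp_le_exp.2 (by linarith)
    have h2 : (2208 : ℝ) + 100 * L ^ 2 < N := by linarith
    have hL2' : 0 ≤ L ^ 2 := sq_nonneg L
    have hN2208 : 2208 ≤ N := by
      have : (2208 : ℝ) ≤ N := by linarith
      exact_mod_cast this
    have hNH : 9 * (H + 1) ≤ N := by
      have : (9 : ℝ) * (H + 1) ≤ N := by linarith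
      exact_mod_cast this
    obtain ⟨e1, e2, e3⟩ := final N H hN2208 (by omega) (by omega) (by omega)
    refine ⟨hNX, hN3, hNL, ?_, ?_, e2, e3⟩
    · rw [hT, e1]; omega
    · rw [hT, e1]; omega
  -- the small numbers
  have hlH : Real.log 2 ≤ Real.log H := Real.log_le_log (by norm_num) hHr
  have hl2 : (0.69 : ℝ) ≤ Real.log 2 := by have := Real.log_two_gt_d9; linarith
  have hbase : 1 / (4 * L ^ 2) ≤ (Real.log H / L) ^ 2 := by
    rw [div_pow, div_le_div_iff₀ (by positivity) (by positivity)]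
    have h1 : (1 : ℝ) / 4 ≤ Real.log H ^ 2 :=
      calc (1 : ℝ) / 4 ≤ 0.69 ^ 2 := by norm_num
        _ ≤ Real.log H ^ 2 := pow_le_pow_left₀ (by norm_num) (hl2.trans hlH) 2
    calc 1 * L ^ 2 = 1 / 4 * (4 * L ^ 2) := by ring
      _ ≤ Real.log H ^ 2 * (4 * L ^ 2) := mul_le_mul_of_nonneg_right h1 (by positivity)
  have hA1c : (A1.card : ℝ) ≤ X * (Real.log H / L) ^ 2 := by
    have h1 : A1.card ≤ (Icc 1 ⌊Real.exp (L / 2)⌋₊).card := by
      apply card_le_card
      intro N hN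
      rw [hA1, mem_filter, hA, mem_filter, mem_Icc] at hN
      rw [mem_Icc]
      exact ⟨by omega, Nat.le_floor hN.2⟩
    rw [Nat.card_Icc, Nat.add_sub_cancel] at h1
    have h2 : (A1.card : ℝ) ≤ Real.exp (L / 2) :=
      le_trans (by exact_mod_cast h1) (Nat.floor_le (Real.exp_pos _).le)
    have h3 : Real.exp (L / 2) ≤ X * (1 / (4 * L ^ 2)) := by
      rw [mul_one_div, le_div_iff₀ (by positivity), ← hXL]
      have h4 : Real.exp L = Real.exp (L / 2) * Real.exp (L / 2) := by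
        rw [← Real.exp_add]; ring_nf
      rw [h4]
      apply mul_le_mul_of_nonneg_left _ (Real.exp_pos _).le
      exact hL7.trans (Real.exp_le_exp.2 (by linarith))
    exact h2.trans (h3.trans (mul_le_mul_of_nonneg_left hbase hXpos.le))
  -- many discovered primes
  have hS1c : (S1.card : ℝ) ≤ X * (Real.log H / L) ^ 2 := by
    have h1 := many (z := z0) (W := W) (T := T) (H := H) (X := X) (j := j) hWz (by omega) (by omega)
      hQW S1 (by
        intro N hN
        rw [hS1, mem_filter] at hN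
        have h2 := hfin N hN.1
        exact ⟨by omega, h2.1, by omega, hN.2⟩)
    have h2 := many_bd hL1 hℓ1 hℓL hsg2
    have h3 : 2 * (X : ℝ) * ((1 / 2) ^ j * Real.exp (2 * (W * ∑ p ∈ LP z0 W, (1 : ℝ) / (p : ℝ) ^ 2))) ≤
        X * (1 / (4 * L ^ 2)) := by
      have h4 : (1 / 2 : ℝ) ^ j * Real.exp (2 * (W * ∑ p ∈ LP z0 W, (1 : ℝ) / (p : ℝ) ^ 2)) ≤
        2 * Real.exp (-(L / (256 * Real.log L))) := h2
      calc 2 * (X : ℝ) * ((1 / 2) ^ j * Real.exp (2 * (W * ∑ p ∈ LP z0 W, (1 : ℝ) / (p : ℝ) ^ 2)))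
          ≤ 2 * (X : ℝ) * (2 * Real.exp (-(L / (256 * Real.log L)))) :=
            mul_le_mul_of_nonneg_left h4 (by positivity)
        _ = X * (4 * Real.exp (-(L / (256 * Real.log L)))) := by ring
        _ ≤ X * (1 / (4 * L ^ 2)) := mul_le_mul_of_nonneg_left hL3 hXpos.le
    exact h1.trans (h3.trans (mul_le_mul_of_nonneg_left hbase hXpos.le))
  -- few discovered primes
  have hS2c : (S2.card : ℝ) ≤ ((8 * C + 1) * (256 * E) ^ 2 * (Real.log H / L) ^ 2) * X := by
    apply walk (z := z0) (W := W) (T := T) (H := H) (X := X) (j := j) (by positivity) hWz (by omega)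
      (by omega) S2
    · intro N hN
      rw [hS2, mem_filter] at hN
      have h2 := hfin N hN.1
      exact ⟨by omega, by omega⟩
    intro e r D Om hD hDj hOm S' hS' hSN
    have hprod_lb := prod_low h10W D Om (fun p hp => (hOm p hp).2)
    set Pd := ∏ p ∈ LP z0 W \ D, (1 - ((Om p).card : ℝ) / p) with hPd
    have hPdpos : 0 < Pd := (Real.exp_pos _).trans_le hprod_lb
    have hDpos : (0 : ℝ) < ∏ p ∈ D, (p : ℝ) :=
      prod_pos fun q hq => by exact_mod_cast (mem_LP.1 (hD hq)).2.2.pos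
    set P : ℝ := (Q0 z0 W : ℝ) * ∏ p ∈ D, (p : ℝ) with hP
    have hPpos : 0 < P := mul_pos hQ0pos hDpos
    have hDle : ∏ p ∈ D, (p : ℝ) ≤ Real.exp (L / 32) := by
      calc ∏ p ∈ D, (p : ℝ) ≤ ∏ _p ∈ D, (W : ℝ) := by
            apply prod_le_prod (fun _ _ => Nat.cast_nonneg _)
            intro p hp
            exact_mod_cast (mem_LP.1 (hD hp)).2.1
        _ = (W : ℝ) ^ D.card := by rw [prod_const]
        _ ≤ (W : ℝ) ^ j := pow_le_pow_right₀ (by linarith) hDj.le
        _ ≤ _ := hWj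
    have hPle : P ≤ Real.exp (3 * L / 64) := by
      calc P ≤ Real.exp (L / 64) * Real.exp (L / 32) := mul_le_mul hQ0 hDle hDpos.le (Real.exp_pos _).le
        _ = Real.exp (3 * L / 64) := by rw [← Real.exp_add]; ring_nf
    rcases S'.eq_empty_or_nonempty with hemp | ⟨N0, hN0⟩
    · rw [hemp, card_empty, Nat.cast_zero]
      positivity
    have hN0e := (hSN N0 hN0).2.1
    have hN0f := hfin N0 (filter_subset _ _ (hS' hN0))
    rw [hN0e] at hN0f
    have he1 : 1 ≤ e := hN0f.2.2.2.1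
    have heH : e + 1 ≤ H := hN0f.2.2.2.2.1
    -- the sieve parameters
    set Y : ℝ := Real.exp (L / (32 * E)) with hY
    set y : ℕ := ⌊Y⌋₊ with hy
    set z : ℕ := ⌊Real.exp (L / 32)⌋₊ with hz
    have hyle : (y : ℝ) ≤ Y := Nat.floor_le (Real.exp_pos _).le
    have hylt : Y < y + 1 := Nat.lt_floor_add_one _
    have hzle : (z : ℝ) ≤ Real.exp (L / 32) := Nat.floor_le (Real.exp_pos _).le
    have hzlt : Real.exp (L / 32) < z + 1 := Nat.lt_floor_add_one _
    have hL2' : 0 ≤ L ^ 2 := sq_nonneg L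
    have hy0r : (0 : ℝ) ≤ y₀ := Nat.cast_nonneg _
    have hWy : W ≤ y := by
      have h1 : (W : ℝ) ≤ y := by
        rw [hWr]
        have h2 : 6 * (H : ℝ) ≤ L ^ 2 := by linarith
        linarith
      exact_mod_cast h1
    have hy0y : y₀ ≤ y := by
      have h1 : (y₀ : ℝ) ≤ y := by linarith
      exact_mod_cast h1
    have hyz : y ^ E ≤ z := by
      apply Nat.le_floor
      push_cast
      calc (y : ℝ) ^ E ≤ Y ^ E := pow_le_pow_left₀ (Nat.cast_nonneg _) hyle E
        _ = Real.exp (L / 32) := by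
          rw [hY, ← Real.exp_nat_mul]
          congr 1
          field_simp
    have hYge : 3 ≤ Y := by linarith
    have hYle32 : Y ≤ Real.exp (L / 32) := by
      rw [hY]
      apply Real.exp_le_exp.2
      apply div_le_div_of_nonneg_left hLpos.le (by norm_num)
      linarith
    have hz1 : 1 ≤ z := by
      apply Nat.le_floor
      push_cast
      linarith
    have hlogz : L / 32 - 1 ≤ Real.log z := by
      have h1 : Real.exp (L / 32 - 1) ≤ z := by
        rw [Real.exp_sub]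
        have h2 : (2 : ℝ) ≤ Real.exp 1 := by have := Real.exp_one_gt_d9; linarith
        have h3 : Real.exp (L / 32) / Real.exp 1 ≤ Real.exp (L / 32) / 2 :=
          div_le_div_of_nonneg_left (Real.exp_pos _).le (by norm_num) h2
        linarith
      rw [Real.le_log_iff_exp_le (by exact_mod_cast (by omega : 0 < z))]
      exact h1
    have hlogyge : L / (64 * E) ≤ Real.log y := by
      have hy0 : (0 : ℝ) < y := by linarith
      rw [Real.le_log_iff_exp_le hy0]
      have h2 : (2 : ℝ) ≤ Real.exp 1 := by have := Real.exp_one_gt_d9; linarith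
      have h4 : Real.exp (L / (64 * E)) ≤ Real.exp (L / (32 * E) - 1) := by
        apply Real.exp_le_exp.2
        have h5 : L / (32 * E) = 2 * (L / (64 * E)) := by field_simp; norm_num
        rw [h5]; linarith
      refine h4.trans ?_
      rw [Real.exp_sub]
      have h3 : Y / Real.exp 1 ≤ Y / 2 :=
          div_le_div_of_nonneg_left (Real.exp_pos _).le (by norm_num) h2
      linarith
    have hlogyle : Real.log y ≤ L := by
      have hy0 : (0 : ℝ) < y := by linarith
      rw [Real.log_le_iff_le_exp hy0]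
      refine hyle.trans (hYle32.trans (Real.exp_le_exp.2 (by linarith)))
    have hlogy0 : 0 < Real.log y := lt_of_lt_of_le (by positivity) hlogyge
    -- the condition on the small primes
    have hcond : Real.log W * (3 * (10 / 9 * (W * ∑ p ∈ LP z0 W, 1 / (p : ℝ) ^ 2)) + 1) ≤ Real.log z := by
      have e1 : (W : ℝ) * ∑ p ∈ LP z0 W, 1 / (p : ℝ) ^ 2 = sg z0 W := rfl
      rw [e1]
      calc Real.log W * (3 * (10 / 9 * sg z0 W) + 1)
          ≤ 2 * ℓ * (3 * (10 / 9 * sg z0 W) + 1) := mul_le_mul_of_nonneg_right hlogW2 (by positivity)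
        _ = 20 / 3 * (sg z0 W * ℓ) + 2 * ℓ := by ring
        _ ≤ L / 64 + 2 * Real.log L := by linarith
        _ ≤ L / 32 - 1 := by linarith
        _ ≤ Real.log z := hlogz
    have hmain := hleaf z0 W y z z X r e D Om S' (by omega) hWy hy0y hyz hz1 h10W he1 (by omega) hD
      hOm hcond (by
        intro N hN
        have h1 := hSN N hN
        have h2 := hfin N (filter_subset _ _ (hS' hN))
        rw [h1.2.1] at h2
        refine ⟨h2.1, h1.1, h1.2.2, ?_, h2.2.2.2.2.2.1, h2.2.2.2.2.2.2⟩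
        have h3 : ((y + e : ℕ) : ℝ) < N := by
          push_cast
          have h4 : (e : ℝ) ≤ H := by exact_mod_cast (by omega : e ≤ H)
          have h5 : Real.exp (L / 32) ≤ Real.exp (L / 4) := Real.exp_le_exp.2 (by linarith)
          have h6 : 2 * Real.exp (L / 4) ≤ Real.exp (L / 2) := by
            have h7 : Real.exp (L / 2) = Real.exp (L / 4) * Real.exp (L / 4) := by
              rw [← Real.exp_add]; ring_nf
            rw [h7]
            have h8 : (2 : ℝ) ≤ Real.exp (L / 4) := by linarith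
            exact mul_le_mul_of_nonneg_right h8 (Real.exp_pos _).le
          linarith [h2.2.2.1]
        exact_mod_cast h3)
    set u : ℝ := (Real.log W / Real.log y) ^ 2 with hu
    have hu_up : u ≤ (256 * E) ^ 2 * (Real.log H / L) ^ 2 := by
      rw [hu, ← mul_pow]
      apply pow_le_pow_left₀ (by positivity)
      calc Real.log W / Real.log y ≤ 4 * Real.log H / (L / (64 * E)) :=
            div_le_div₀ (by linarith) hlogW4 (by positivity) hlogyge
        _ = 256 * E * (Real.log H / L) := by rw [div_div_eq_mul_div]; ring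
    have hu_lo : Real.exp (-(L / 16)) ≤ u := by
      have h1 : 1 / L ≤ Real.log W / Real.log y := div_le_div₀ (by linarith) hlogW1 hlogy0 hlogyle
      have h2 : (1 / L) ^ 2 ≤ u := pow_le_pow_left₀ (by positivity) h1 2
      refine le_trans ?_ h2
      rw [Real.exp_neg, one_div, inv_pow]
      apply inv_anti₀ (by positivity)
      linarith
    have hu0 : 0 < u := (Real.exp_pos _).trans_le hu_lo
    have hprod_lb2 : Real.exp (-(L / 128)) ≤ Pd :=
      (Real.exp_le_exp.2 (by linarith)).trans hprod_lb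
    have hXP : Real.exp (L - 3 * L / 64) ≤ X / P := by
      rw [Real.exp_sub, hXL]
      exact div_le_div_of_nonneg_left hXpos.le hPpos hPle
    have hXP0 : 0 < (X : ℝ) / P := by positivity
    have herr : (((z * z : ℕ) : ℕ) : ℝ) ^ 6 ≤ X / P * Pd * u := by
      calc (((z * z : ℕ) : ℕ) : ℝ) ^ 6 ≤ (Real.exp (L / 32) * Real.exp (L / 32)) ^ 6 := by
            push_cast
            apply pow_le_pow_left₀ (by positivity)
            exact mul_le_mul hzle hzle (Nat.cast_nonneg _) (Real.exp_pos _).le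
        _ = Real.exp (3 * L / 8) := by
            rw [← Real.exp_add, ← Real.exp_nat_mul]
            congr 1
            push_cast
            ring
        _ ≤ Real.exp ((L - 3 * L / 64) + -(L / 128) + -(L / 16)) := Real.exp_le_exp.2 (by linarith)
        _ = Real.exp (L - 3 * L / 64) * Real.exp (-(L / 128)) * Real.exp (-(L / 16)) := by
            rw [Real.exp_add, Real.exp_add]
        _ ≤ X / P * Pd * u := by
            apply mul_le_mul _ hu_lo (Real.exp_pos _).le (by positivity)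
            exact mul_le_mul hXP hprod_lb2 (Real.exp_pos _).le hXP0.le
    have hX1 : ((X : ℝ) + 1) / P ≤ 2 * (X / P) := by
      have h1 : (1 : ℝ) ≤ X := by exact_mod_cast (by omega : 1 ≤ X)
      have h2 : 2 * ((X : ℝ) / P) = (2 * X) / P := by ring
      rw [h2]
      exact div_le_div_of_nonneg_right (by linarith) hPpos.le
    calc (S'.card : ℝ) ≤ 4 * C * (((X : ℝ) + 1) / P * Pd * u) + (((z * z : ℕ) : ℕ) : ℝ) ^ 6 := hmain
      _ ≤ 4 * C * (2 * (X / P) * Pd * u) + X / P * Pd * u := by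
          apply add_le_add _ herr
          apply mul_le_mul_of_nonneg_left _ (by positivity)
          apply mul_le_mul_of_nonneg_right _ hu0.le
          exact mul_le_mul_of_nonneg_right hX1 hPdpos.le
      _ = ((8 * C + 1) * (X / P) * Pd) * u := by ring
      _ ≤ ((8 * C + 1) * (X / P) * Pd) * ((256 * E) ^ 2 * (Real.log H / L) ^ 2) :=
          mul_le_mul_of_nonneg_left hu_up (by positivity)
      _ = (8 * C + 1) * (256 * E) ^ 2 * (Real.log H / L) ^ 2 * (X / P) * Pd := by ring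
  have hfinal : (A.card : ℝ) = A1.card + (S1.card + S2.card) := by exact_mod_cast hsplit
  rw [hfinal]
  calc (A1.card : ℝ) + (S1.card + S2.card) ≤ X * (Real.log H / L) ^ 2 + (X * (Real.log H / L) ^ 2 +
        ((8 * C + 1) * (256 * E) ^ 2 * (Real.log H / L) ^ 2) * X) :=
          add_le_add hA1c (add_le_add hS1c hS2c)
    _ = (2 + (8 * C + 1) * (256 * E) ^ 2) * X * (Real.log H / L) ^ 2 := by ring

end Pool.Agent.K7.H40.GR
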